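import Pool.Agent.P.MP_599875_lc.Flip

/-! The tree of finite approximations to an isomorphism. -/

namespace Pool.Agent.P.MP_599875_lc

open Pool.Agent.Lib.Comp Encodable Denumerable Filter
open Nat.Partrec (Code)

set_option maxHeartbeats 400000

/-- `τ` (of length `n`) looks like an initial segment of the join of an isomorphism and its
inverse -/
def isoT (c d : Code) (τ : List ℕ) (n : ℕ) : Bool :=
  ((List.range n).all fun a => (List.range n).all fun b =>
    !(ltb (2 * a) n && ltb (2 * b) n && eqb (τ.getD (2 * a) 0) (τ.getD (2 * b) 0)) || eqb a b) &&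
  ((List.range n).all fun y => !(ltb (2 * y + 1) n && ltb (2 * τ.getD (2 * y + 1) 0) n) ||
    eqb (τ.getD (2 * τ.getD (2 * y + 1) 0) 0) y) &&
  ((List.range n).all fun k => !((ofNat (ℕ × List ℕ) k).2.all fun x => ltb (2 * x) n) ||
    (Code.evaln n c k).elim true fun a =>
      (Code.evaln n d (encode ((ofNat (ℕ × List ℕ) k).1,
        (ofNat (ℕ × List ℕ) k).2.map fun x => τ.getD (2 * x) 0))).elim true fun b => eqb a b)

theorem pr_isoT (c d : Code) : Primrec fun σ : List ℕ => isoT c d σ.reverse σ.length := by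
  unfold isoT; fun_prop

theorem getD_rev (q : ℕ → ℕ) {n k : ℕ} (h : k < n) : (rev q n).reverse.getD k 0 = q k := by
  rw [reverse_rev, List.getD_eq_getElem _ _ (by simpa using h)]; simp

theorem isoT_iff (c d : Code) (q : ℕ → ℕ) (n : ℕ) :
    isoT c d (rev q n).reverse (rev q n).length = true ↔
      (∀ a b, 2 * a < n → 2 * b < n → q (2 * a) = q (2 * b) → a = b) ∧
      (∀ y, 2 * y + 1 < n → 2 * q (2 * y + 1) < n → q (2 * q (2 * y + 1)) = y) ∧
      ∀ i (xs : List ℕ), encode (i, xs) < n → (∀ x ∈ xs, 2 * x < n) → ∀ a b,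
        Code.evaln n c (encode (i, xs)) = some a →
        Code.evaln n d (encode ((i : ℕ), xs.map fun x => q (2 * x))) = some b → a = b := by
  rw [length_rev, isoT, Bool.and_eq_true, Bool.and_eq_true, and_assoc]
  refine and_congr ?_ (and_congr ?_ ?_)
  · simp only [List.all_eq_true, List.mem_range, Bool.or_eq_true, Bool.not_eq_true',
      ← Bool.not_eq_true, Bool.and_eq_true, ltb_true, eqb_true]
    constructor
    · intro h a b ha hb hab
      refine (h a (by omega) b (by omega)).resolve_left ?_
      rw [getD_rev q ha, getD_rev q hb]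
      simp [ha, hb, hab]
    · intro h a _ b _
      by_contra h1
      simp only [not_or, not_not] at h1
      obtain ⟨⟨⟨h1, h2⟩, h3⟩, h4⟩ := h1
      rw [getD_rev q h1, getD_rev q h2] at h3
      exact h4 (h a b h1 h2 h3)
  · simp only [List.all_eq_true, List.mem_range, Bool.or_eq_true, eqb_true]
    constructor
    · intro h y h1 h2
      have := h y (by omega)
      rw [getD_rev q h1, getD_rev q h2] at this
      exact this.resolve_left (by simp [h1, h2])
    · intro h y _
      by_contra h1
      simp only [not_or, Bool.not_eq_true, Bool.not_eq_false', Bool.and_eq_true, ltb_true] at h1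
      obtain ⟨⟨h1, h2⟩, h3⟩ := h1
      rw [getD_rev q h1] at h2 h3
      rw [getD_rev q h2] at h3
      exact h3 (h y h1 h2)
  · have e : ∀ xs : List ℕ, (∀ x ∈ xs, 2 * x < n) →
        (xs.map fun x => (rev q n).reverse.getD (2 * x) 0) = xs.map fun x => q (2 * x) :=
      fun xs h => List.map_congr_left fun x hx => getD_rev q (h x hx)
    simp only [List.all_eq_true, List.mem_range, Bool.or_eq_true]
    constructor
    · intro h i xs h1 h2 a b h3 h4
      have := h _ h1
      rw [Denumerable.ofNat_encode, e xs h2, h3, h4] at this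
      refine eqb_true.1 (this.resolve_left ?_)
      simpa using h2
    · intro h k hk
      cases h1 : ((ofNat (ℕ × List ℕ) k).2.all fun x => ltb (2 * x) n)
      · exact Or.inl rfl
      right
      simp only [List.all_eq_true, ltb_true] at h1
      have h2 := h (ofNat (ℕ × List ℕ) k).1 (ofNat (ℕ × List ℕ) k).2 (by simpa using hk) h1
      rw [Prod.mk.eta, Denumerable.encode_ofNat] at h2
      rw [e _ h1]
      rcases h3 : Code.evaln n c k with _ | a
      · rfl
      rcases h4 : Code.evaln n d (encode ((ofNat (ℕ × List ℕ) k).1,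
        (ofNat (ℕ × List ℕ) k).2.map fun x => q (2 * x))) with _ | b
      · rfl
      exact eqb_true.2 (h2 a b h3 h4)

/-- A pair of computable structures with an isomorphism computable in `O` and no computable one
yields a tree with a path computable in `O` and no computable path. -/
theorem exists_tree {O : Set (ℕ →. ℕ)} {D E : ℕ → List ℕ → Bool} (hD : Computable₂ D)
    (hE : Computable₂ E) {f : ℕ → ℕ} (hf : Function.Bijective f)
    (hi : ∀ i xs, D i xs = E i (xs.map f)) (hO : Nat.RecursiveIn O (fun n => Part.some (f n)))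
    (hno : ¬ ∃ f : ℕ → ℕ, Function.Bijective f ∧ (∀ i xs, D i xs = E i (xs.map f)) ∧ Computable f) :
    ∃ (T : List ℕ → Bool) (p : ℕ → ℕ), Primrec T ∧ (∀ n, T (rev p (n + 1)) = true) ∧
      Nat.RecursiveIn O (fun n => Part.some (p n)) ∧
      ∀ q, Computable q → ¬ ∀ n, ∃ m, n ≤ m ∧ T (rev q m) = true := by
  obtain ⟨c, hc⟩ := exists_code hD
  obtain ⟨d, hd⟩ := exists_code hE
  obtain ⟨g, h1, h2⟩ := Function.bijective_iff_has_inverse.1 hf
  have hg := totIn_inv hO hf.1 h2
  let p : ℕ → ℕ := fun n => cond n.bodd (g (n / 2)) (f (n / 2))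
  have p0 : ∀ a, p (2 * a) = f a := fun a => by simp [p]
  have p1 : ∀ a, p (2 * a + 1) = g a := fun a => by
    simp only [p]
    rw [show (2 * a + 1) / 2 = a by omega]; simp
  refine ⟨fun σ => isoT c d σ.reverse σ.length, p, pr_isoT c d, fun n => ?_, ?_, fun q hq h => ?_⟩
  · simp only [isoT_iff, p0, p1]
    refine ⟨fun a b _ _ h => hf.1 h, fun y _ _ => h2 y, fun i xs _ _ a b ha hb => ?_⟩
    have h3 := Code.evaln_sound (Option.mem_def.2 ha)
    have h4 := Code.evaln_sound (Option.mem_def.2 hb)
    rw [hc, Part.mem_some_iff] at h3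
    rw [hd, Part.mem_some_iff] at h4
    rw [h3, h4, hi]
  · have h3 := totIn_comp (totIn_primrec (O := O) (f := fun m =>
      cond m.unpair.1.bodd m.unpair.2.unpair.1 m.unpair.2.unpair.2) (by fun_prop))
      (totIn_pair (totIn_primrec (f := fun n => n) (by fun_prop))
        (totIn_pair (totIn_comp hg (totIn_primrec (f := fun n => n / 2) (by fun_prop)))
          (totIn_comp hO (totIn_primrec (f := fun n => n / 2) (by fun_prop)))))
    simpa using h3
  · simp only [isoT_iff] at h
    refine hno ⟨fun a => q (2 * a), ⟨fun a b hab => ?_, fun y => ⟨q (2 * y + 1), ?_⟩⟩,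
      fun i xs => ?_, by fun_prop⟩
    · obtain ⟨m, h3, h4, -⟩ := h (2 * a + 2 * b + 1)
      exact h4 a b (by omega) (by omega) hab
    · obtain ⟨m, h3, -, h4, -⟩ := h (2 * y + 2 * q (2 * y + 1) + 2)
      exact h4 y (by omega) (by omega)
    · have h3 : encode (D i xs) ∈ Code.eval c (encode (i, xs)) := by rw [hc]; simp
      have h4 : encode (E i (xs.map fun a => q (2 * a))) ∈
          Code.eval d (encode (i, xs.map fun a => q (2 * a))) := by rw [hd]; simp
      obtain ⟨k, hk⟩ := Code.evaln_complete.1 h3
      obtain ⟨l, hl⟩ := Code.evaln_complete.1 h4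
      obtain ⟨m, h5, -, -, h6⟩ := h (k + l + encode (i, xs) + 2 * xs.sum + 1)
      refine encode_inj.1 (h6 i xs (by omega) (fun x hx => ?_) _ _
        (Code.evaln_mono (by omega) hk) (Code.evaln_mono (by omega) hl))
      have := List.single_le_sum (l := xs) (by simp) x hx
      omega

end Pool.Agent.P.MP_599875_lc
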