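import Pool.Agent.P.MP_599875_lc.XCat

/-! Repairing the parities along the path. -/

namespace Pool.Agent.P.MP_599875_lc

open Pool.Agent.Lib.Comp Encodable Denumerable Filter
open Nat.Partrec (Code)

set_option maxHeartbeats 400000

variable {T : List ℕ → Bool} {c : Code} {g gi : ℕ → ℕ} {β : List ℕ} {p : ℕ → ℕ}

/-- the flips, computed from a segment of the path -/
def flp (T : List ℕ → Bool) (β : List ℕ) (M : List ℕ → Bool) (ν σ : List ℕ) : ℕ :=
  cond (tc T β ν && M ν) (uv 1)
    (cond (onq T (0 :: β) ν σ.tail && M (anc ν)) (uv (2 * σ.getD 0 0)) 0)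

theorem flp_rev (M : List ℕ → Bool) (ν : List ℕ) :
    flp T β M ν (rev p ((str ν).length + 1)) = cond (tc T β ν && M ν) (uv 1)
      (cond (onp T p (0 :: β) ν && M (anc ν)) (uv (2 * p (str ν).length)) 0) := rfl

theorem cp_flp (hT : Primrec T) {M : List ℕ → Bool} (hM : Computable M) :
    Computable fun q : List ℕ × List ℕ => flp T β M q.1 q.2 := by
  have h1 : Computable fun q : List ℕ × List ℕ => tc T β q.1 :=
    Primrec.to_comp (by unfold tc; fun_prop)
  have h2 : Computable fun q : List ℕ × List ℕ => onq T (0 :: β) q.1 q.2.tail :=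
    Primrec.to_comp (by unfold onq; fun_prop)
  have h3 : Computable fun q : List ℕ × List ℕ => anc q.1 := Primrec.to_comp (by fun_prop)
  unfold flp
  exact cp_cond (cp_and h1 (hM.comp Computable.fst)) (by fun_prop)
    (cp_cond (cp_and h2 (hM.comp h3)) (by fun_prop) (by fun_prop))

theorem onp_conn {μ : List ℕ} (hc : conn μ = true) (j : ℕ) :
    onp T p (0 :: β) (j :: μ) = true ↔ tc T β μ = true ∧ j = 1 := by
  rw [onp_iff, tc_iff, conn_of_conn hc, valid_conn hc, str_conn hc]
  constructor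
  · rintro ⟨-, ⟨h1, h2⟩, h3, -⟩
    by_cases hj : j = 1
    · subst hj
      rw [own_one hc] at h3
      exact ⟨⟨hc, h1, by simpa using h3⟩, rfl⟩
    · rw [own_ne hc hj] at h3
      simp at h3
  · rintro ⟨⟨-, h1, h2⟩, rfl⟩
    exact ⟨rfl, ⟨h1, le_rfl⟩, by rw [own_one hc, h2], rfl⟩

theorem flp_sym (hp : ∀ n, T (rev p (n + 1)) = true) (hγ : Tru T (0 :: β)) (M : List ℕ → Bool)
    (ν : List ℕ) : Sym T ν (flp T β M ν (rev p ((str ν).length + 1))) := by
  rw [flp_rev]
  cases h1 : (tc T β ν && M ν)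
  · cases h2 : (onp T p (0 :: β) ν && M (anc ν))
    · exact sym_zero ν
    · rw [Bool.and_eq_true] at h2
      exact (onp_inf hγ ((onp_cons hp (onp_iff.1 h2.1).1 _).2 ⟨h2.1, rfl⟩)).sym_uv
  · rw [Bool.and_eq_true] at h1
    exact (onp_inf (p := p) hγ ((onp_conn (tc_iff.1 h1.1).1 1).2 ⟨h1.1, rfl⟩)).sym_uv

theorem flp_par (hp : ∀ n, T (rev p (n + 1)) = true) (M : List ℕ → Bool) (j : ℕ) (μ : List ℕ) :
    xor (bt j (flp T β M μ (rev p ((str μ).length + 1))))
      (par (flp T β M (j :: μ) (rev p ((str (j :: μ)).length + 1)))) =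
      (tc T β (j :: μ) && M (j :: μ)) := by
  rw [flp_rev, flp_rev]
  cases hc : conn μ
  · have h1 : tc T β μ = false := by simp [tc, hc]
    have h2 : anc (j :: μ) = anc μ := by rw [anc_cons, hc]; rfl
    have h3 : onp T p (0 :: β) (j :: μ) =
        (onp T p (0 :: β) μ && decide (j = 2 * p (str μ).length)) := by
      rw [Bool.eq_iff_iff, onp_cons hp hc]; simp
    rw [h1, h2, h3]
    cases ht : tc T β (j :: μ)
    · cases onp T p (0 :: β) μ <;> cases M (anc μ) <;> simp [bt_uv]
      by_cases hj : j = 2 * p (str μ).length <;> simp [hj]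
    · have h4 : onp T p (0 :: β) μ = false := by
        rw [← Bool.not_eq_true, onp_iff]
        rintro ⟨-, -, h, -⟩
        rw [← own_reg hc j, (tc_iff.1 ht).2.2] at h
        exact List.cons_ne_self _ _ h.symm
      rw [h4]
      cases M (j :: μ) <;> simp
  · have h1 : tc T β (j :: μ) = false := by simp [tc, conn_of_conn hc]
    have h2 : anc (j :: μ) = μ := by rw [anc_cons, hc]; rfl
    have h3 : onp T p (0 :: β) (j :: μ) = (tc T β μ && decide (j = 1)) := by
      rw [Bool.eq_iff_iff, onp_conn hc]; simp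
    have h4 : onp T p (0 :: β) μ = false := by simp [onp, onq, hc]
    rw [h1, h2, h3, h4]
    cases tc T β μ <;> cases M μ <;> simp [bt_uv]
    by_cases hj : j = 1 <;> simp [hj]

theorem Cp.xiso {O : Set (ℕ →. ℕ)} (H : Cp T c g gi) (hT : Primrec T)
    (hp : ∀ n, T (rev p (n + 1)) = true) (hO : Nat.RecursiveIn O (fun n => Part.some (p n))) :
    ∃ f : ℕ → ℕ, Function.Bijective f ∧
      (∀ i xs, Str T false i xs = Str T false i (xs.map (gi ∘ f))) ∧
      Nat.RecursiveIn O (fun n => Part.some (f n)) := by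
  obtain ⟨β, hβ, he⟩ := exists_tru (T := T) (2 * encode c)
  have hγ := H.press hβ he
  obtain ⟨o, ho, o0, o1, o2, o3⟩ := H.all_origins hT hβ he
  obtain ⟨M, hM, hM'⟩ : ∃ M : List ℕ → Bool, Computable M ∧ ∀ j μ, M (j :: μ) =
      xor (bt j (vx (gi (o μ)))) (par (vx (gi (o (j :: μ))))) := by
    refine ⟨fun ν => !eqb (dlt (gi (o ν.tail)) (gi (o ν))) 0,
      cp_not (cp_eqb (H.cp_dlt' (ho.comp (by fun_prop)) ho) (by fun_prop)), fun j μ => ?_⟩
    simp only [List.tail_cons]
    rw [dlt_child (j := j) (by rw [o1, o1])]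
    cases xor (bt j (vx (gi (o μ)))) (par (vx (gi (o (j :: μ))))) <;> rfl
  let t : List ℕ → ℕ := fun ν => vx (gi (o ν)) ^^^ flp T β M ν (rev p ((str ν).length + 1))
  have ht : ∀ ν, Sym T ν (t ν) := fun ν => (o2 ν).xor (flp_sym hp hγ M ν)
  have h1 := fibre_one ht H.inv
  have h2 : ∀ y, {x | key T x = keyt T t (gi y)}.Infinite := fun y => fibre_two ht _
  refine ⟨mt (key T) (fun y => keyt T t (gi y)), mt_bijective h1 h2,
    iso_of (t := t) (fun x => (mt_spec h1 x).1) (fun j μ => ?_) ?_, ?_⟩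
  · have h3 := flp_par (β := β) hp M j μ
    simp only [t, bt_xor, par_xor]
    cases h4 : tc T β (j :: μ)
    · rw [o3 j μ h4]
      rw [h4] at h3
      revert h3
      cases bt j (flp T β M μ (rev p ((str μ).length + 1))) <;>
        cases par (flp T β M (j :: μ) (rev p ((str (j :: μ)).length + 1))) <;> simp
    · rw [h4, hM'] at h3
      revert h3
      cases bt j (flp T β M μ (rev p ((str μ).length + 1))) <;>
        cases par (flp T β M (j :: μ) (rev p ((str (j :: μ)).length + 1))) <;>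
        cases bt j (vx (gi (o μ))) <;> cases par (vx (gi (o (j :: μ)))) <;> simp
  · have h3 : tc T β [] = false := by simp [tc]
    have h4 : onp T p (0 :: β) [] = false := by simp [onp, onq]
    simp only [t, o0, flp_rev, h3, h4]
    simp
  obtain ⟨P, hP, hP'⟩ : ∃ P : ℕ × List ℕ → ℕ → Bool,
      Computable (fun q : (ℕ × List ℕ) × ℕ => P q.1 q.2) ∧ ∀ x y,
        P (x, rev p ((str (node x)).length + 1)) y = true ↔ keyt T t (gi y) = key T x := by
    refine ⟨fun q y => eqb (node (gi y)) (node q.1) &&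
      eqb (dlt (gi (o (node q.1))) (gi y) ^^^ flp T β M (node q.1) q.2) (vx q.1) &&
      eqb (lab T (gi y)) (lab T q.1), ?_, fun x y => ?_⟩
    · have a1 : Computable fun q : (ℕ × List ℕ) × ℕ => node q.1.1 := Primrec.to_comp (by fun_prop)
      have a2 : Computable fun q : (ℕ × List ℕ) × ℕ => vx q.1.1 := Primrec.to_comp (by fun_prop)
      have a3 : Computable fun q : (ℕ × List ℕ) × ℕ => lab T q.1.1 := Primrec.to_comp (by fun_prop)
      have a4 : Computable fun q : (ℕ × List ℕ) × ℕ => flp T β M (node q.1.1) q.1.2 :=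
        ((cp_flp (β := β) hT hM).comp (a1.pair (cp_snd Computable.fst)) :)
      exact cp_and (cp_and (cp_eqb (H.cp_node' Computable.snd) a1)
        (cp_eqb (cp_xor (H.cp_dlt' (ho.comp a1) Computable.snd) a4) a2))
        (cp_eqb (H.cp_lab' Computable.snd) a3)
    · simp only [Bool.and_eq_true, eqb_true, keyt, key, Nat.pair_eq_pair, encode_inj, and_assoc]
      refine and_congr_right fun h => ?_
      rw [dlt_same (by rw [o1, h]), h]
      simp only [t]
      rw [Nat.xor_comm (vx (gi (o (node x)))), Nat.xor_assoc]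
  have hK : Computable fun x => cnt (fun z => eqb (key T z) (key T x)) x := by
    refine cp_cnt (P := fun x z => eqb (key T z) (key T x)) (Primrec.to_comp (by fun_prop))
      Computable.id
  have hR : Computable fun q : (ℕ × List ℕ) × ℕ => (P q.1 q.2 &&
      eqb (cnt (P q.1) q.2) (cnt (fun z => eqb (key T z) (key T q.1.1)) q.1.1)) := by
    refine cp_and hP (cp_eqb (cp_cnt (P := fun q : (ℕ × List ℕ) × ℕ => P q.1) ?_ Computable.snd)
      (hK.comp (cp_fst Computable.fst)))
    exact (hP.comp (g := fun r : ((ℕ × List ℕ) × ℕ) × ℕ => (r.1.1, r.2)) (by fun_prop) :)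
  refine recIn_of_seg hO (h := fun x => (str (node x)).length + 1) (by fun_prop)
    (Ψ := fun q => Nat.rfind fun y => Part.some (P q y &&
      eqb (cnt (P q) y) (cnt (fun z => eqb (key T z) (key T q.1)) q.1)))
    (Partrec.rfind (Computable₂.partrec₂ (Computable.to₂ hR))) fun x => ?_
  have e1 : ∀ y, (P (x, rev p ((str (node x)).length + 1)) y &&
      eqb (cnt (P (x, rev p ((str (node x)).length + 1))) y)
        (cnt (fun z => eqb (key T z) (key T x)) x)) = true ↔
      y = mt (key T) (fun y => keyt T t (gi y)) x := by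
    intro y
    rw [Bool.and_eq_true, eqb_true, cnt_eq, cnt_eq]
    simp only [hP', eqb_true]
    constructor
    · rintro ⟨h3, h4⟩
      exact (mt_unique (c := fun y => keyt T t (gi y)) h3 (by convert h4)).symm
    · rintro rfl
      exact ⟨(mt_spec h1 x).1, by convert (mt_spec h1 x).2⟩
  rw [Nat.mem_rfind]
  refine ⟨Part.mem_some_iff.2 ((e1 _).2 rfl).symm, fun {m} hm => Part.mem_some_iff.2 ?_⟩
  symm
  rw [← Bool.not_eq_true, e1]
  omega

theorem exists_code {E : ℕ → List ℕ → Bool} (hE : Computable₂ E) :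
    ∃ c : Code, ∀ i xs, Code.eval c (encode (i, xs)) = Part.some (encode (E i xs)) := by
  obtain ⟨c, hc⟩ := Code.exists_code.1 hE
  exact ⟨c, fun i xs => by rw [hc]; simp⟩

theorem qry_sound {E : ℕ → List ℕ → Bool}
    (hc : ∀ i xs, Code.eval c (encode (i, xs)) = Part.some (encode (E i xs))) {i s : ℕ}
    {xs : List ℕ} (h : qry c i xs s = true) : E i xs = true := by
  have h1 := Code.evaln_sound (Option.mem_def.2 (eqb_true.1 h))
  rw [hc, Part.mem_some_iff] at h1
  revert h1
  cases E i xs <;> simp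

theorem qry_complete {E : ℕ → List ℕ → Bool}
    (hc : ∀ i xs, Code.eval c (encode (i, xs)) = Part.some (encode (E i xs))) {i : ℕ}
    {xs : List ℕ} (h : E i xs = true) : ∀ᶠ s in atTop, qry c i xs s = true := by
  have h1 : 1 ∈ Code.eval c (encode (i, xs)) := by rw [hc, h]; simp
  obtain ⟨k, hk⟩ := Code.evaln_complete.1 h1
  filter_upwards [eventually_ge_atTop k] with s hs
  exact eqb_true.2 (Code.evaln_mono hs hk)

/-- The structure is categorical relative to the path. -/
theorem xcat {O : Set (ℕ →. ℕ)} (hT : Primrec T) (hp : ∀ n, T (rev p (n + 1)) = true)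
    (hO : Nat.RecursiveIn O (fun n => Part.some (p n))) {E : ℕ → List ℕ → Bool}
    (hE : Computable₂ E) (hg : Function.Bijective g)
    (hi : ∀ i xs, Str T false i xs = E i (xs.map g)) :
    ∃ f : ℕ → ℕ, Function.Bijective f ∧ (∀ i xs, Str T false i xs = E i (xs.map f)) ∧
      Nat.RecursiveIn O (fun n => Part.some (f n)) := by
  obtain ⟨c, hc⟩ := exists_code hE
  obtain ⟨gi, h1, h2⟩ := Function.bijective_iff_has_inverse.1 hg
  have e1 : ∀ i y, E i [y] = eqb i (tau T false (gi y)) := fun i y => by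
    rw [← Str_one, hi, List.map_singleton, h2]
  have e2 : ∀ i y z, E i [y, z] = eqb i (dlt (gi y) (gi z)) := fun i y z => by
    rw [← Str_two (T := T) false, hi]
    simp [h2 y, h2 z]
  have H : Cp T c g gi :=
    ⟨h1, fun i y s h => eqb_true.1 (e1 i y ▸ qry_sound hc h),
      fun y => qry_complete hc (by rw [e1, eqb_true]),
      fun i y z s h => eqb_true.1 (e2 i y z ▸ qry_sound hc h),
      fun y z => qry_complete hc (by rw [e2, eqb_true])⟩
  obtain ⟨f, h3, h4, h5⟩ := H.xiso hT hp hO
  refine ⟨f, h3, fun i xs => ?_, h5⟩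
  rw [h4, hi, List.map_map]
  congr 2
  funext x
  exact h2 (f x)

end Pool.Agent.P.MP_599875_lc
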