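import Pool.Agent.P.MP_599875_lc.Struct

/-! The structure is not computably categorical. -/

namespace Pool.Agent.P.MP_599875_lc

open Pool.Agent.Lib.Comp Encodable Denumerable
open Nat.Partrec (Code)

/-- regular nodes with owner `γ` whose string is `σ` -/
def onq (T : List ℕ → Bool) (γ ν σ : List ℕ) : Bool :=
  !conn ν && valid T ν && eqb (own ν) γ && eqb (str ν) σ

/-- regular nodes with owner `γ` on the path `p` -/
def onp (T : List ℕ → Bool) (p : ℕ → ℕ) (γ ν : List ℕ) : Bool := onq T γ ν (rev p (str ν).length)

variable {T : List ℕ → Bool} {p : ℕ → ℕ}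

theorem onp_iff {γ ν : List ℕ} : onp T p γ ν = true ↔
    conn ν = false ∧ valid T ν = true ∧ own ν = γ ∧ str ν = rev p (str ν).length := by
  simp [onp, onq, and_assoc]

theorem str_reg {μ : List ℕ} (h : conn μ = false) (i : ℕ) : str (i :: μ) = i / 2 :: str μ := by
  rw [str_cons, h]; rfl
theorem str_conn {μ : List ℕ} (h : conn μ = true) (i : ℕ) : str (i :: μ) = [] := by
  rw [str_cons, h]; rfl

theorem onp_cons (hp : ∀ n, T (rev p (n + 1)) = true) {γ ν : List ℕ} (hc : conn ν = false)
    (i : ℕ) : onp T p γ (i :: ν) = true ↔ onp T p γ ν = true ∧ i = 2 * p (str ν).length := by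
  rw [onp_iff, onp_iff, conn_of_reg hc, valid_reg hc, own_reg hc, str_reg hc, List.length_cons,
    rev_succ, List.cons.injEq]
  have h2 := Nat.bodd_add_div2 i
  rw [Nat.div2_val] at h2
  constructor
  · rintro ⟨h1, ⟨h3, -⟩, h4, h5, h6⟩
    rw [h1] at h2
    exact ⟨⟨hc, h3, h4, h6⟩, by simp at h2; omega⟩
  · rintro ⟨⟨-, h3, h4, h6⟩, h5⟩
    have h7 : i / 2 = p (str ν).length := by omega
    refine ⟨by rw [h5]; simp, ⟨h3, Or.inr ?_⟩, h4, h7, h6⟩
    rw [h7]
    conv => lhs; arg 1; arg 2; rw [h6]
    exact hp _

theorem onp_inf {γ ν : List ℕ} (hγ : Tru T γ) (h : onp T p γ ν = true) : Inf T ν := by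
  obtain ⟨h1, h2, h3, -⟩ := onp_iff.1 h
  exact free_inf hγ ((free_reg h1).2 ⟨h2, by rw [h3]⟩)

theorem own_conn_length {μ : List ℕ} (h : conn μ = true) (i : ℕ) :
    (own (i :: μ)).length = (own μ).length + 1 := by
  rw [own_cons, h]; rfl

theorem tru_nil : Tru T [] := fun n => ⟨n, le_rfl, List.nil_suffix⟩

/-- the two copies are isomorphic -/
theorem copies_iso (hp : ∀ n, T (rev p (n + 1)) = true) :
    ∃ f : ℕ → ℕ, Function.Bijective f ∧ ∀ i xs, Str T false i xs = Str T true i (xs.map f) := by
  let t : List ℕ → ℕ := fun ν => cond (onp T p [] ν) (uv (2 * p (str ν).length)) 0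
  have ht : ∀ ν, Sym T ν (t ν) := by
    intro ν
    cases h : onp T p [] ν
    · simp only [t, h]; exact sym_zero ν
    · simp only [t, h]
      exact (onp_inf tru_nil ((onp_cons hp (onp_iff.1 h).1 _).2 ⟨h, rfl⟩)).sym_uv
  have h1 := fibre_one ht (g := id) (gi := id) (fun _ => rfl)
  have h2 := fibre_two ht
  refine ⟨mt (key T) (keyt T t), mt_bijective h1 h2, iso_of (t := t) (fun x => (mt_spec h1 x).1)
    (fun i ν => ?_) ?_⟩
  · have h3 : par (t (i :: ν)) = onp T p [] (i :: ν) := by
      simp only [t]; cases onp T p [] (i :: ν) <;> simp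
    rw [h3]
    cases hc : conn ν
    · rw [Bool.eq_iff_iff, onp_cons hp hc]
      simp only [t]
      cases onp T p [] ν <;> simp [bt_uv]
    · have h4 : onp T p [] ν = false := by
        rw [← Bool.not_eq_true, onp_iff, hc]; simp
      have h5 : onp T p [] (i :: ν) = false := by
        rw [← Bool.not_eq_true, onp_iff]
        rintro ⟨-, -, h, -⟩
        have := own_conn_length hc i
        rw [h] at this; simp at this
      simp only [t, h4, h5]; simp
  · have h3 : onp T p [] [] = true := by rw [onp_iff]; simp
    simp only [t, h3]; simp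

theorem odd_level {o e : ℕ} {η : List ℕ} (h : Tru T (o :: η)) (he : η.length = 2 * e + 1) :
    o = 0 ↔ (Code.eval (ofNat Code e) 0).Dom := by
  have hx : ∀ s, expn T (dl T) η s = (Code.evaln s (ofNat Code e) 0).isSome := by
    intro s
    unfold expn
    rw [he, show (2 * e + 1) / 2 = e by omega]
    simp
  constructor
  · rintro rfl
    obtain ⟨s, -, hs⟩ := h 0
    have := vis_zero hs
    rw [hx, Option.isSome_iff_exists] at this
    obtain ⟨a, ha⟩ := this
    exact Part.dom_iff_mem.2 ⟨a, Code.evaln_sound ha⟩
  · intro hd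
    obtain ⟨a, ha⟩ := Part.dom_iff_mem.1 hd
    obtain ⟨k, hk⟩ := Code.evaln_complete.1 ha
    obtain ⟨s, h1, hs⟩ := h k
    rcases o with _ | o
    · rfl
    · have := (vis_fin hs).2
      rw [hx, Code.evaln_mono h1 hk] at this
      simp at this

theorem seq_path {S : ℕ → List ℕ} (hS : Computable S) (h : ∀ n, ∃ a, S (n + 1) = a :: S n) :
    ∃ q, Computable q ∧ ∀ n, n ≤ (S n).length ∧ rev q (S n).length = S n := by
  have h1 : ∀ n m, n ≤ m → (S n).reverse <+: (S m).reverse := by
    intro n m hnm
    rw [List.reverse_prefix]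
    induction m, hnm using Nat.le_induction with
    | base => exact List.suffix_refl _
    | succ m _ ih =>
      obtain ⟨a, ha⟩ := h m
      rw [ha]; exact ih.trans (List.suffix_cons _ _)
  have h2 : ∀ n, n ≤ (S n).length := by
    intro n
    induction n with
    | zero => omega
    | succ n ih =>
      obtain ⟨a, ha⟩ := h n
      rw [ha, List.length_cons]; omega
  have h0 : Computable fun k => (S (k + 1)).reverse :=
    cp_of1 (F := List.reverse) (by fun_prop) (by fun_prop)
  refine ⟨fun k => (S (k + 1)).reverse.getD k 0, by fun_prop, fun n => ⟨h2 n, ?_⟩⟩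
  apply List.reverse_injective
  rw [reverse_rev]
  apply List.ext_getElem (by simp)
  intro k h3 h4
  have h5 : k < (S (k + 1)).reverse.length := by have := h2 (k + 1); simp; omega
  simp only [List.getElem_map, List.getElem_range]
  rw [List.getD_eq_getElem _ _ h5, (h1 (k + 1) (max n (k + 1)) (by omega)).getElem h5,
    (h1 n (max n (k + 1)) (by omega)).getElem h4]

/-- the least direction of a vertex -/
def fb (F : ℕ) : ℕ := ((List.range F).find? (fun i => bt i F)).getD 0

theorem pr_fb : Primrec fb := by unfold fb; fun_prop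

theorem bt_fb {F : ℕ} (h : F ≠ 0) : bt (fb F) F = true := by
  unfold fb
  rcases h1 : (List.range F).find? (fun i => bt i F) with _ | i
  · rw [List.find?_eq_none] at h1
    refine absurd (eq_zero_of_bt fun i => ?_) h
    by_contra h2
    rw [Bool.not_eq_false] at h2
    exact h1 i (List.mem_range.2 (lt_of_bt h2)) h2
  · exact List.find?_some (p := fun i => bt i F) h1

/-- no computable sequence of nodes which act infinitely often -/
theorem no_seq (hno : ∀ q, Computable q → ¬ ∀ n, ∃ m, n ≤ m ∧ T (rev q m) = true)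
    {S : ℕ → List ℕ} (hS : Computable S) (h : ∀ n, ∃ a, S (n + 1) = a :: S n)
    (hi : ∀ n, Inf T (S n)) : False := by
  by_cases hc : ∀ N, ∃ n, N ≤ n ∧ conn (S n) = true
  · have h1 : ∀ n m, n ≤ m → (own (S n)).length ≤ (own (S m)).length := by
      intro n m hnm
      induction m, hnm using Nat.le_induction with
      | base => exact le_rfl
      | succ m _ ih =>
        obtain ⟨a, ha⟩ := h m
        rw [ha]; exact ih.trans (own_suffix _ _).length_le
    have h2 : ∀ k, ∃ n, leb (2 * k + 2) (own (S n)).length = true := by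
      suffices ∀ k, ∃ n, k ≤ (own (S n)).length from fun k => by simpa using this (2 * k + 2)
      intro k
      induction k with
      | zero => exact ⟨0, by omega⟩
      | succ k ih =>
        obtain ⟨n, hn⟩ := ih
        obtain ⟨m, h3, h4⟩ := hc n
        obtain ⟨a, ha⟩ := h m
        refine ⟨m + 1, ?_⟩
        have := h1 n m h3
        rw [ha, own_conn_length h4]; omega
    have h3 : Computable fun n => own (S n) := cp_of1 (F := own) (by fun_prop) hS
    have h4 : Computable fun k => Nat.find (h2 k) := cp_find
      (P := fun k n => leb (2 * k + 2) (own (S n)).length) (cp_leb (by fun_prop) (cp_length (h3.comp Computable.snd))) h2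
    let θ : ℕ → List ℕ := fun k => own (S (Nat.find (h2 k)))
    have h5 : Computable θ := h3.comp h4
    have h6 : Computable fun c : Code =>
        eqb (((θ (encode c)).drop ((θ (encode c)).length - (2 * encode c + 2))).getD 0 0) 0 := by
      fun_prop
    refine ComputablePred.halting_problem 0 (ComputablePred.computable_iff.2 ⟨_, h6, ?_⟩)
    funext c
    have h7 : 2 * encode c + 2 ≤ (θ (encode c)).length :=
      leb_true.1 (Nat.find_spec (h2 (encode c)))
    have h8 : Tru T (θ (encode c)) := (hi _).tru
    have h9 := h8.suffix (List.drop_suffix ((θ (encode c)).length - (2 * encode c + 2)) _)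
    have h10 : ((θ (encode c)).drop ((θ (encode c)).length - (2 * encode c + 2))).length =
      2 * encode c + 2 := by rw [List.length_drop]; omega
    generalize (θ (encode c)).drop ((θ (encode c)).length - (2 * encode c + 2)) = l at h9 h10
    rcases l with _ | ⟨o, η⟩
    · simp at h10
    · have := odd_level (e := encode c) h9 (by simpa using h10)
      rw [Denumerable.ofNat_encode] at this
      simp [← this]
  · push Not at hc
    obtain ⟨N, hN⟩ := hc
    have hN' : ∀ n, conn (S (N + n)) = false := fun n => by simpa using hN (N + n) (by omega)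
    have h1 : ∀ n, (∃ a, str (S (N + (n + 1))) = a :: str (S (N + n))) ∧
        T (str (S (N + (n + 1)))) = true := by
      intro n
      obtain ⟨a, ha⟩ := h (N + n)
      have h2 := hN' (n + 1)
      have h3 := (hi (N + n + 1)).valid
      rw [← add_assoc, ha] at h2 ⊢
      rw [ha, valid_reg (hN' n)] at h3
      rw [conn_of_reg (hN' n)] at h2
      rw [str_reg (hN' n)]
      exact ⟨⟨_, rfl⟩, by simpa [h2] using h3.2⟩
    obtain ⟨q, hq, h2⟩ := seq_path (S := fun n => str (S (N + n)))
      (cp_of1 (F := str) (by fun_prop) (by fun_prop)) (fun n => (h1 n).1)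
    refine hno q hq fun n => ⟨_, (Nat.le_succ n).trans (h2 (n + 1)).1, ?_⟩
    rw [(h2 (n + 1)).2]
    exact (h1 n).2

/-- no computable isomorphism between the two copies -/
theorem not_cc (hno : ∀ q, Computable q → ¬ ∀ n, ∃ m, n ≤ m ∧ T (rev q m) = true)
    {h : ℕ → ℕ} (hh : ∀ i xs, Str T false i xs = Str T true i (xs.map h)) (hc : Computable h) :
    False := by
  have e1 : ∀ x, tau T false x = tau T true (h x) := by
    intro x
    have := hh (tau T false x) [x]
    rw [List.map_singleton, Str_one, Str_one, eqb_true.2 rfl] at this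
    exact eqb_true.1 this.symm
  have e2 : ∀ x y, dlt x y = dlt (h x) (h y) := by
    intro x y
    have : _ = Str T true _ [h x, h y] := hh (dlt x y) [x, y]
    rw [Str_two, Str_two, eqb_true.2 rfl] at this
    exact eqb_true.1 this.symm
  have e3 : ∀ x, node (h x) = node x ∧ lab T (h x) = lab T x := by
    intro x
    have := e1 x
    simp only [tau, Nat.pair_eq_pair, encode_inj] at this
    exact ⟨this.1.symm, this.2.1.symm⟩
  let t : List ℕ → ℕ := fun ν => vx (h (tok ν 0 0 0))
  have ht : Computable t :=
    cp_of1 (F := vx) (by fun_prop) (hc.comp (Primrec.to_comp (by fun_prop)))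
  have e4 : par (t []) = true := by
    have := e1 (tok [] 0 0 0)
    simp only [tau, Nat.pair_eq_pair, (e3 _).1, node_tok, vx_tok, eqb_true.2 rfl, cond_true]
      at this
    have h1 := this.2.2
    simp only [t]
    revert h1
    cases par (vx (h (tok [] 0 0 0))) <;> simp
  have e5 : ∀ j ν, bt j (t ν) = par (t (j :: ν)) := by
    intro j ν
    have := e2 (tok ν 0 0 0) (tok (j :: ν) 0 0 0)
    rw [(dlt_child_zero (j := j) (by simp)).2 (by simp)] at this
    exact (dlt_child_zero (by simp [(e3 _).1])).1 this.symm
  have e6 : ∀ ν, t ν ≠ 0 → Inf T ν := by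
    intro ν hν
    by_contra hi
    obtain ⟨n, hn⟩ := fin_rigid hi
    obtain ⟨x, h1, h2, h3⟩ := (has_top (T := T) ν n).exists
    have h4 := has_of_lab ((e3 x).2.trans h3)
    have h5 := e2 (tok ν 0 0 0) x
    rw [dlt_same (by simp [h1]), dlt_same (by simp [(e3 _).1, h1]), vx_tok, h2] at h5
    rw [(e3 x).1, h1] at h4
    have h6 := hn n le_rfl _ h4
    rw [h6] at h5
    exact hν (by simpa using h5.symm)
  let S : ℕ → List ℕ := fun n => Nat.rec [] (fun _ ν => fb (t ν) :: ν) n
  have hfb := pr_fb.to_comp
  have hS : Computable S := by simp only [S]; fun_prop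
  have e7 : ∀ n, par (t (S n)) = true := by
    intro n
    induction n with
    | zero => exact e4
    | succ n ih =>
      change par (t (fb (t (S n)) :: S n)) = true
      rw [← e5]
      refine bt_fb fun h0 => ?_
      rw [h0] at ih; simp at ih
  refine no_seq hno hS (fun n => ⟨_, rfl⟩) fun n => e6 _ fun h0 => ?_
  have := e7 n
  rw [h0] at this; simp at this

end Pool.Agent.P.MP_599875_lc
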