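import Pool.Agent.P.MP_599875_lc.NotCC

/-! Pressing a computable copy. -/

namespace Pool.Agent.P.MP_599875_lc

open Pool.Agent.Lib.Comp Encodable Denumerable Filter
open Nat.Partrec (Code)

variable {T : List ℕ → Bool}

theorem wit_mono {c : Code} {i s s' y : ℕ} (h : wit c i s = some y) (hs : s ≤ s') :
    wit c i s' = some y := by
  induction s', hs using Nat.le_induction with
  | base => exact h
  | succ s' _ ih =>
    unfold wit at ih ⊢
    rw [List.range_succ, List.find?_append]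
    rcases h1 : (List.range s').find? (fun w => qry c i [w.unpair.1] w) with _ | w
    · rw [h1] at ih; simp at ih
    · rw [h1] at ih ⊢; exact ih

theorem wit_uniq {c : Code} {i s s' y y' : ℕ} (h : wit c i s = some y) (h' : wit c i s' = some y') :
    y = y' := by
  have h1 := wit_mono h (le_max_left s s')
  rw [wit_mono h' (le_max_right s s')] at h1
  exact (Option.some.inj h1).symm

theorem wit_sound {c : Code} {i s y : ℕ} (h : wit c i s = some y) : ∃ w, qry c i [y] w = true := by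
  unfold wit at h
  obtain ⟨w, h1, rfl⟩ := Option.map_eq_some_iff.1 h
  exact ⟨w, List.find?_some (p := fun w => qry c i [w.unpair.1] w) h1⟩

theorem wit_exists {c : Code} {i y : ℕ} (h : ∀ᶠ s in atTop, qry c i [y] s = true) :
    ∃ s y', wit c i s = some y' := by
  obtain ⟨k, hk⟩ := eventually_atTop.1 h
  refine ⟨Nat.pair y k + 1, ?_⟩
  unfold wit
  rcases h1 : (List.range (Nat.pair y k + 1)).find? (fun w => qry c i [w.unpair.1] w) with _ | w
  · rw [List.find?_eq_none] at h1
    have := h1 (Nat.pair y k) (by simp)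
    rw [Nat.unpair_pair] at this
    exact absurd (hk _ (Nat.right_le_pair _ _)) this
  · rw [h1]; exact ⟨_, rfl⟩

theorem mlab_const {β ν : List ℕ} {s s' : ℕ} (h : mlab T (dl T) β ν s ≠ 0) (hs : s ≤ s') :
    mlab T (dl T) β ν s' = mlab T (dl T) β ν s := by
  induction s', hs using Nat.le_induction with
  | base => rfl
  | succ s' _ ih => rw [mlab_succ, ih, eqb_false.2 h]; rfl

theorem mlab_pos {β ν : List ℕ} {u s : ℕ} (hu : (0 :: β) <:+ dl T u) (hc : encode ν ≤ u)
    (hs : u < s) : mlab T (dl T) β ν s ≠ 0 := by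
  have h1 : mlab T (dl T) β ν (u + 1) ≠ 0 := by
    rw [mlab_succ, leb_true.2 hc, sfx_iff.2 hu]
    cases h : eqb (mlab T (dl T) β ν u) 0
    · simpa using h
    · simp
  rw [mlab_const h1 hs]; exact h1

theorem mlab_spec {β ν : List ℕ} {s : ℕ} (h : mlab T (dl T) β ν s ≠ 0) :
    ∃ u < s, (0 :: β) <:+ dl T u ∧ encode ν ≤ u ∧
      mlab T (dl T) β ν s = top T (dl T) ν (u + 1) + 1 := by
  induction s with
  | zero => exact absurd rfl h
  | succ s ih =>
    rw [mlab_succ] at h ⊢
    cases h1 : (eqb (mlab T (dl T) β ν s) 0 && leb (encode ν) s && sfx (0 :: β) (dl T s))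
    · rw [h1] at h
      obtain ⟨u, h2, h3⟩ := ih h
      exact ⟨u, by omega, h3⟩
    · simp only [Bool.and_eq_true, leb_true, sfx_iff] at h1
      exact ⟨s, by omega, h1.2, h1.1.2, rfl⟩

theorem tau_ty {x : ℕ} (h : node x ≠ []) : tau T false x = ty (node x) (lab T x) := by
  unfold tau ty
  rw [eqb_false.2 h]; rfl

theorem of_ty {ν : List ℕ} {L x : ℕ} (h : ty ν L = tau T false x) : node x = ν ∧ lab T x = L := by
  simp only [tau, ty, Nat.pair_eq_pair, encode_inj] at h
  exact ⟨h.1.symm, h.2.1.symm⟩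

theorem ne_nil_of_not_free {β ν : List ℕ} (h : free T β ν = false) : ν ≠ [] := by
  rintro rfl; simp at h

theorem not_free_cons {β ν : List ℕ} (h : free T β ν = false) (i : ℕ) :
    free T β (i :: ν) = false := by
  by_contra h1
  rw [free_tail (by simpa using h1)] at h
  simp at h

/-- The code `c` describes a copy of the structure. -/
structure Cp (T : List ℕ → Bool) (c : Code) (g gi : ℕ → ℕ) : Prop where
  inv : ∀ x, gi (g x) = x
  s1 : ∀ i y s, qry c i [y] s = true → i = tau T false (gi y)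
  c1 : ∀ y, ∀ᶠ s in atTop, qry c (tau T false (gi y)) [y] s = true
  s2 : ∀ i y z s, qry c i [y, z] s = true → i = dlt (gi y) (gi z)
  c2 : ∀ y z, ∀ᶠ s in atTop, qry c (dlt (gi y) (gi z)) [y, z] s = true

variable {c : Code} {g gi : ℕ → ℕ} {β : List ℕ}

theorem Cp.wit_node (H : Cp T c g gi) {ν : List ℕ} {L s y : ℕ} (h : wit c (ty ν L) s = some y) :
    node (gi y) = ν ∧ lab T (gi y) = L :=
  let ⟨_, hw⟩ := wit_sound h; of_ty (H.s1 _ _ _ hw)

theorem Cp.chk1_spec (H : Cp T c g gi) {ν : List ℕ} {s : ℕ} (hν : free T β ν = false)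
    (h : chk1 T (dl T) c β ν s = true) :
    ∃ y, wit c (ty ν (mlab T (dl T) β ν s)) s = some y ∧ Has T ν (vx (gi y)) (top T (dl T) ν s) ∧
      (free T β ν.tail = false → ∃ y', wit c (ty ν.tail (mlab T (dl T) β ν.tail s)) s = some y' ∧
        dlt (gi y') (gi y) = 0) := by
  unfold chk1 at h
  rw [hν, Bool.false_or] at h
  rcases h1 : wit c (ty ν (mlab T (dl T) β ν s)) s with _ | y
  · rw [h1] at h; simp at h
  rw [h1, Option.elim_some, Bool.and_eq_true, List.any_eq_true] at h
  obtain ⟨⟨z, -, h2⟩, h3⟩ := h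
  rw [Bool.and_eq_true] at h2
  obtain ⟨h4, h5⟩ := of_ty (H.s1 _ _ _ h2.1)
  have h6 := H.s2 _ _ _ _ h2.2
  have h7 := (H.wit_node h1).1
  refine ⟨y, rfl, ?_, fun h8 => ?_⟩
  · have h8 := has_of_lab h5
    rw [dlt_same (h7.trans h4.symm)] at h6
    rw [h4, ← Nat.xor_eq_zero_iff.1 h6.symm] at h8
    exact h8
  · rw [h8, Bool.false_or] at h3
    rcases h9 : wit c (ty ν.tail (mlab T (dl T) β ν.tail s)) s with _ | y'
    · rw [h9] at h3; simp at h3
    · rw [h9, Option.elim_some] at h3
      exact ⟨y', rfl, (H.s2 _ _ _ _ h3).symm⟩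

theorem expn_even (he : β.length = 2 * encode c) (s : ℕ) : expn T (dl T) β s = true ↔
    ∀ ν : List ℕ, encode ν < lst (dl T) β s → chk1 T (dl T) c β ν s = true := by
  unfold expn
  rw [he, show 2 * encode c / 2 = encode c by omega, Denumerable.ofNat_encode]
  simp only [Nat.bodd_mul, Nat.bodd_two, Bool.false_and, cond_false, List.all_eq_true,
    List.mem_range]
  constructor
  · intro h ν hν
    simpa using h _ hν
  · intro h n hn
    exact h _ (by simpa using hn)

theorem Cp.wit_ev (H : Cp T c g gi) {ν : List ℕ} (hν : ν ≠ []) {s : ℕ}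
    (hs : mlab T (dl T) β ν s ≠ 0) : ∃ s' y, wit c (ty ν (mlab T (dl T) β ν s)) s' = some y := by
  obtain ⟨u, -, -, -, h⟩ := mlab_spec hs
  obtain ⟨x, h1, -, h3⟩ := (has_top (T := T) ν (u + 1)).exists
  have h4 := H.c1 (g x)
  rw [H.inv, tau_ty (by rwa [h1]), h1, h3, ← h] at h4
  exact wit_exists h4

theorem lst_spec {s n : ℕ} (h : n < lst (dl T) β s) : ∃ u < s, n ≤ u ∧ (0 :: β) <:+ dl T u := by
  obtain ⟨u, hu⟩ := Nat.exists_eq_succ_of_ne_zero (show lst (dl T) β s ≠ 0 by omega)
  have h1 : lst (dl T) β s ≤ s := lastB_le _ _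
  exact ⟨u, by omega, by omega, sfx_iff.1 (lastB_spec (P := fun u => sfx (0 :: β) (dl T u)) hu)⟩

theorem lt_lst {u s : ℕ} (h : (0 :: β) <:+ dl T u) (hs : u < s) : u < lst (dl T) β s :=
  lt_lastB (P := fun u => sfx (0 :: β) (dl T u)) (sfx_iff.2 h) hs

theorem mlab_lst {ν : List ℕ} {s : ℕ} (h : encode ν < lst (dl T) β s) :
    mlab T (dl T) β ν s ≠ 0 :=
  let ⟨_, h1, h2, h3⟩ := lst_spec h; mlab_pos h3 h2 h1

theorem Cp.origin_zero (H : Cp T c g gi) (hβ : Tru T β) (he : β.length = 2 * encode c) {l : ℕ}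
    (hl : lst (dl T) β l = l) (hno : ∀ u, l ≤ u → ¬ (0 :: β) <:+ dl T u) (k : ℕ) :
    ∀ ν : List ℕ, l - encode ν = k → free T β ν = false → encode ν < l → ∀ s y,
      wit c (ty ν (mlab T (dl T) β ν l)) s = some y → vx (gi y) = 0 := by
  induction k using Nat.strong_induction_on with
  | _ k ih =>
  intro ν hk hν hc s y hy
  obtain ⟨u, hul, hu, hcu, hm⟩ := mlab_spec (mlab_lst (T := T) (β := β) (ν := ν) (s := l) (by omega))
  obtain ⟨hy1, hy2⟩ := H.wit_node hy
  have h1 := has_of_lab (hy2.trans hm)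
  rw [hy1] at h1
  rcases h1.cases with h1 | ⟨v', h1, h2, -⟩
  · exact h1
  have h3 : u < v' := by
    by_contra h3
    have : v' < top T (dl T) ν (u + 1) := lt_lastB h2 (by omega)
    omega
  have hq : ∀ w, act T (dl T) ν w = true → w < l := by
    intro w hw
    by_contra h4
    exact hno w (by omega) (quiet hβ hν hu hcu (by omega) hw)
  have h4 : v' < top T (dl T) ν l := lt_lastB h2 (hq _ h2)
  obtain ⟨v, hv⟩ := Nat.exists_eq_succ_of_ne_zero (show top T (dl T) ν l ≠ 0 by omega)
  have hva : act T (dl T) ν v = true := lastB_spec hv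
  have hvl := hq _ hva
  have hvg := quiet hβ hν hu hcu (by omega) hva
  have hx := (expn_even he v).1 (vis_zero hvg)
  have huv : u < lst (dl T) β v := lt_lst hu (by omega)
  have hlv : lst (dl T) β v ≤ v := lastB_le _ _
  have hmv : ∀ κ : List ℕ, encode κ < lst (dl T) β v →
      mlab T (dl T) β κ v = mlab T (dl T) β κ l := fun κ hκ =>
    (mlab_const (mlab_lst hκ) hvl.le).symm
  obtain ⟨y', h5, h6, -⟩ := H.chk1_spec hν (hx ν (by omega))
  rw [hmv ν (by omega)] at h5
  obtain rfl := wit_uniq hy h5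
  rcases h6.cases with h6 | ⟨u', h6, h7, h8⟩
  · exact h6
  obtain rfl : u' = v := by
    have h9 : u' < top T (dl T) ν l := lt_lastB h7 (hq _ h7)
    by_contra h10
    have : u' < top T (dl T) ν v := lt_lastB h7 (by omega)
    omega
  refine eq_zero_of_bt fun i => ?_
  by_contra hi
  rw [Bool.not_eq_false] at hi
  obtain ⟨w, h9, h10⟩ := sub_iff.1 h8 i hi
  have h11 := (act_iff.1 h10).2
  have h12 : encode (i :: ν) < lst (dl T) β u' := by
    obtain ⟨v1, hv1⟩ := Nat.exists_eq_succ_of_ne_zero (show top T (dl T) ν u' ≠ 0 by omega)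
    have h13 : act T (dl T) ν v1 = true := lastB_spec hv1
    have h14 : top T (dl T) ν u' ≤ u' := lastB_le _ _
    rcases Nat.lt_or_ge u v1 with h15 | h15
    · have := lt_lst (quiet hβ hν hu hcu h15 h13) (show v1 < u' by omega)
      omega
    · omega
  obtain ⟨z, h13, -, h14⟩ := H.chk1_spec (not_free_cons hν i) (hx _ h12)
  obtain ⟨y', h15, h16⟩ := h14 hν
  rw [List.tail_cons, hmv ν (by omega)] at h15
  obtain rfl := wit_uniq hy h15
  rw [hmv _ h12] at h13
  have h17 := encode_lt_cons i ν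
  have h18 := ih (l - encode (i :: ν)) (by omega) _ rfl (not_free_cons hν i) (by omega) _ _ h13
  rw [dlt_child_zero (j := i) (by rw [(H.wit_node h13).1, hy1]), hi, h18] at h16
  simp at h16

theorem Cp.press (H : Cp T c g gi) (hβ : Tru T β) (he : β.length = 2 * encode c) :
    Tru T (0 :: β) := by
  by_contra h0
  obtain ⟨l, hl, hl'⟩ := hβ.not_exp h0
  have hno : ∀ u, l ≤ u → ¬ (0 :: β) <:+ dl T u := fun u hu => hl'.fin_no_exp hu
  have hl0 := hl l le_rfl
  have A : ∀ ν : List ℕ, free T β ν = false → encode ν < l → ∃ y, node (gi y) = ν ∧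
      vx (gi y) = 0 ∧ ∀ᶠ s in atTop, wit c (ty ν (mlab T (dl T) β ν s)) s = some y := by
    intro ν hν hc
    have h1 := mlab_lst (T := T) (β := β) (ν := ν) (s := l) (by omega)
    obtain ⟨s', y, hy⟩ := H.wit_ev (ne_nil_of_not_free hν) h1
    refine ⟨y, (H.wit_node hy).1, H.origin_zero hβ he hl0 hno _ ν rfl hν hc _ _ hy, ?_⟩
    filter_upwards [eventually_ge_atTop s', eventually_ge_atTop l] with s h2 h3
    rw [mlab_const h1 h3]
    exact wit_mono hy h2
  have B : ∀ ν : List ℕ, encode ν < l → ∀ᶠ s in atTop, chk1 T (dl T) c β ν s = true := by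
    intro ν hc
    cases hν : free T β ν
    swap
    · exact Eventually.of_forall fun s => by unfold chk1; rw [hν]; rfl
    obtain ⟨y, h1, h2, h3⟩ := A ν hν hc
    obtain ⟨x, h4, h5, h6⟩ := (has_top (T := T) ν l).exists
    have h7 := H.c1 (g x)
    rw [H.inv, tau_ty (by rw [h4]; exact ne_nil_of_not_free hν), h4, h6] at h7
    have h8 := H.c2 y (g x)
    rw [H.inv, dlt_same (h1.trans h4.symm), h2, h5, Nat.xor_self] at h8
    have h9 : ∀ᶠ s in atTop, (free T β ν.tail ||
        (wit c (ty ν.tail (mlab T (dl T) β ν.tail s)) s).elim false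
          (fun y' => qry c 0 [y', y] s)) = true := by
      cases hν' : free T β ν.tail
      swap
      · exact Eventually.of_forall fun s => rfl
      obtain ⟨j, μ, rfl⟩ := List.exists_cons_of_ne_nil (ne_nil_of_not_free hν)
      have := encode_lt_cons j μ
      obtain ⟨y', h10, h11, h12⟩ := A μ hν' (by omega)
      have h13 := H.c2 y' y
      rw [(dlt_child_zero (j := j) (by rw [h1, h10])).2 (by rw [h2, h11]; simp)] at h13
      filter_upwards [h12, h13] with s h14 h15
      rw [List.tail_cons, h14]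
      exact h15
    obtain ⟨u, hul, h10, h11⟩ := lst_spec (T := T) (β := β) (s := l) (n := encode ν) (by omega)
    filter_upwards [h3, h7, h8, h9, eventually_ge_atTop l, eventually_gt_atTop (g x)]
      with s h12 h13 h14 h15 h16 h17
    have h18 : top T (dl T) ν s = top T (dl T) ν l := lastB_const h16 fun w h19 _ => by
      by_contra h20
      exact hno w h19 (quiet hβ hν h11 h10 (by omega) (by simpa using h20))
    unfold chk1
    rw [h12, Option.elim_some, h15, h18, hν, Bool.false_or, Bool.and_true, List.any_eq_true]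
    exact ⟨g x, List.mem_range.2 h17, by rw [h13, h14]; rfl⟩
  have C : ∀ᶠ s in atTop, ∀ n ∈ Finset.range l, chk1 T (dl T) c β (ofNat (List ℕ) n) s = true :=
    (eventually_all_finset _).2 fun n hn => B _ (by simpa using hn)
  obtain ⟨N, hN⟩ := eventually_atTop.1 C
  obtain ⟨s, h1, h2⟩ := hl' (max N l)
  have h3 := vis_fin h2
  rw [(expn_even he s).2 fun ν hν => by simpa using hN s (by omega) (encode ν) (by simp; omega)]
    at h3
  simp at h3

/-- origins of the nodes which are not free -/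
theorem Cp.origins (H : Cp T c g gi) (hT : Primrec T) (hβ : Tru T β)
    (he : β.length = 2 * encode c) :
    ∃ o : List ℕ → ℕ, Computable o ∧ ∀ ν, free T β ν = false → node (gi (o ν)) = ν ∧
      Sym T ν (vx (gi (o ν))) ∧ (¬ Inf T ν → vx (gi (o ν)) = 0) ∧
      ∀ j, bt j (vx (gi (o ν))) = par (vx (gi (o (j :: ν)))) := by
  have hγ := H.press hβ he
  have A : ∀ ν : List ℕ, ∃ s, (free T β ν || (!eqb (mlab T (dl T) β ν s) 0 &&
      (wit c (ty ν (mlab T (dl T) β ν s)) s).isSome)) = true := by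
    intro ν
    cases hν : free T β ν
    swap
    · exact ⟨0, rfl⟩
    obtain ⟨u, h1, h2⟩ := hγ (encode ν)
    have h3 := mlab_pos h2 h1 (Nat.lt_succ_self u)
    obtain ⟨s', y, hy⟩ := H.wit_ev (ne_nil_of_not_free hν) h3
    refine ⟨max s' (u + 1), ?_⟩
    rw [mlab_const h3 (le_max_right _ _), wit_mono hy (le_max_left _ _), eqb_false.2 h3]
    rfl
  have hA : Computable fun ν => Nat.find (A ν) := cp_find (P := fun ν s =>
    (free T β ν || (!eqb (mlab T (dl T) β ν s) 0 &&
      (wit c (ty ν (mlab T (dl T) β ν s)) s).isSome))) (Primrec.to_comp (by fun_prop)) A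
  let o : List ℕ → ℕ := fun ν =>
    (wit c (ty ν (mlab T (dl T) β ν (Nat.find (A ν)))) (Nat.find (A ν))).getD 0
  have ho : Computable o := cp_of2 (F := fun (ν : List ℕ) (s : ℕ) =>
    (wit c (ty ν (mlab T (dl T) β ν s)) s).getD 0) (by fun_prop) Computable.id hA
  have B : ∀ ν : List ℕ, free T β ν = false → ∀ s y, mlab T (dl T) β ν s ≠ 0 →
      wit c (ty ν (mlab T (dl T) β ν s)) s = some y → o ν = y := by
    intro ν hν s y h1 h2
    have h3 := Nat.find_spec (A ν)
    simp only [hν, Bool.false_or, Bool.and_eq_true, Bool.not_eq_true', eqb_false,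
      Option.isSome_iff_exists] at h3
    obtain ⟨h3, y', h4⟩ := h3
    simp only [o]
    rw [h4, Option.getD_some]
    rw [← mlab_const h3 (le_max_left _ s)] at h4
    rw [← mlab_const h1 (le_max_right (Nat.find (A ν)) s)] at h2
    exact wit_uniq h4 h2
  have C : ∀ n m, ∃ s, n ≤ s ∧ m < lst (dl T) β s ∧ (0 :: β) <:+ dl T s := by
    intro n m
    obtain ⟨u, h1, h2⟩ := hγ m
    obtain ⟨s, h3, h4⟩ := hγ (max n (u + 1))
    have := lt_lst h2 (show u < s by omega)
    exact ⟨s, by omega, by omega, h4⟩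
  have D : ∀ ν : List ℕ, free T β ν = false → ∀ n, ∃ s, n ≤ s ∧ node (gi (o ν)) = ν ∧
      Has T ν (vx (gi (o ν))) (top T (dl T) ν s) := by
    intro ν hν n
    obtain ⟨s, h1, h2, h3⟩ := C n (encode ν)
    obtain ⟨y, h4, h5, -⟩ := H.chk1_spec hν ((expn_even he s).1 (vis_zero h3) ν h2)
    rw [B ν hν s y (mlab_lst h2) h4]
    exact ⟨s, h1, (H.wit_node h4).1, h5⟩
  have E : ∀ ν : List ℕ, free T β ν = false → ¬ Inf T ν → vx (gi (o ν)) = 0 := by
    intro ν hν hi
    obtain ⟨n, hn⟩ := fin_rigid hi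
    obtain ⟨s, h1, -, h2⟩ := D ν hν n
    exact hn s h1 _ h2
  refine ⟨o, ho, fun ν hν => ?_⟩
  obtain ⟨s0, -, h1, h2⟩ := D ν hν 0
  refine ⟨h1, ?_, E ν hν, fun j => ?_⟩
  · by_cases hi : Inf T ν
    · exact hi.sym fun i => h2.once
    · rw [E ν hν hi]; exact sym_zero ν
  · obtain ⟨s, -, h3, h4⟩ := C 0 (encode (j :: ν))
    have h5 := encode_lt_cons j ν
    obtain ⟨y, h6, -, h7⟩ := H.chk1_spec (not_free_cons hν j)
      ((expn_even he s).1 (vis_zero h4) _ h3)
    obtain ⟨y', h8, h9⟩ := h7 hν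
    rw [B _ (not_free_cons hν j) s y (mlab_lst h3) h6, B ν hν s y' (mlab_lst (by omega)) h8]
    exact (dlt_child_zero (by rw [(H.wit_node h6).1, (H.wit_node h8).1]; rfl)).1 h9

end Pool.Agent.P.MP_599875_lc
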