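import Pool.Agent.P.MP_599875_lc.Tree

/-! The structure: a tree of cubes with labels. -/

namespace Pool.Agent.P.MP_599875_lc

open Pool.Agent.Lib.Comp Encodable Denumerable

section defs
variable (T : List ℕ → Bool)

/-- all directions of `F` are allowed at stage `s` -/
def sub (ν : List ℕ) (F s : ℕ) : Bool :=
  (List.range F).all fun i => !bt i F || !eqb (top T (dl T) (i :: ν) (top T (dl T) ν s)) 0
/-- the vertex `F` of the cube `ν` has label `m` by stage `s` -/
def hasB (ν : List ℕ) (F m s : ℕ) : Bool :=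
  (eqb F 0 && eqb m 0) || (List.range s).any fun u =>
    act T (dl T) ν u && ((eqb F 0 && eqb m (u + 1)) || (leb m u && sub T ν F u))
/-- the vertex `F` of the cube `ν` has label `m` -/
def Has (ν : List ℕ) (F m : ℕ) : Prop := ∃ s, hasB T ν F m s = true
/-- the node of an element -/
def node (x : ℕ) : List ℕ := ofNat (List ℕ) x.unpair.1
/-- the vertex of an element -/
def vx (x : ℕ) : ℕ := x.unpair.2.unpair.1
/-- the label of an element -/
def lab (x : ℕ) : ℕ :=
  cond (hasB T (node x) (vx x) x.unpair.2.unpair.2.unpair.1 x.unpair.2.unpair.2.unpair.2)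
    (x.unpair.2.unpair.2.unpair.1 + 1) 0
/-- an element -/
def tok (ν : List ℕ) (F m s : ℕ) : ℕ := Nat.pair (encode ν) (Nat.pair F (Nat.pair m s))
/-- the unary type -/
def tau (p : Bool) (x : ℕ) : ℕ :=
  Nat.pair (encode (node x)) (Nat.pair (lab T x) (cond (eqb (node x) []) (xor (par (vx x)) p).toNat 0))
/-- the binary type -/
def dlt (x y : ℕ) : ℕ :=
  cond (eqb (node x) (node y)) (vx x ^^^ vx y)
    (cond (eqb (node x) (node y).tail) (xor (bt ((node y).getD 0 0) (vx x)) (par (vx y))).toNat 0)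
/-- the structure -/
def Str (p : Bool) (i : ℕ) (xs : List ℕ) : Bool :=
  cond (eqb xs.length 1) (eqb i (tau T p (xs.getD 0 0)))
    (cond (eqb xs.length 2) (eqb i (dlt (xs.getD 0 0) (xs.getD 1 0))) false)
/-- the node acts infinitely often -/
def Inf (ν : List ℕ) : Prop := ∀ n, ∃ s, n ≤ s ∧ act T (dl T) ν s = true
/-- the node acts at least once -/
def Once (ν : List ℕ) : Prop := ∃ s, act T (dl T) ν s = true
/-- translations which preserve the labels -/
def Sym (ν : List ℕ) (t : ℕ) : Prop := ∀ F m, Has T ν F m → Has T ν (F ^^^ t) m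
/-- node, vertex and label -/
def key (x : ℕ) : ℕ := Nat.pair (encode (node x)) (Nat.pair (vx x) (lab T x))
/-- node, translated vertex and label -/
def keyt (t : List ℕ → ℕ) (x : ℕ) : ℕ :=
  Nat.pair (encode (node x)) (Nat.pair (vx x ^^^ t (node x)) (lab T x))

end defs

section prim
variable {α : Type*} [Primcodable α] {T : List ℕ → Bool}

@[fun_prop] theorem pr_dl' (hT : Primrec T) {f : α → ℕ} (hf : Primrec f) :
    Primrec (fun x => dl T (f x)) := (pr_dl hT).comp hf
@[fun_prop] theorem pr_sub (hT : Primrec T) {ν : α → List ℕ} {F s : α → ℕ} (h1 : Primrec ν)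
    (h2 : Primrec F) (h3 : Primrec s) : Primrec (fun x => sub T (ν x) (F x) (s x)) := by
  unfold sub; fun_prop
@[fun_prop] theorem pr_hasB (hT : Primrec T) {ν : α → List ℕ} {F m s : α → ℕ} (h1 : Primrec ν)
    (h2 : Primrec F) (h3 : Primrec m) (h4 : Primrec s) :
    Primrec (fun x => hasB T (ν x) (F x) (m x) (s x)) := by
  unfold hasB; fun_prop
@[fun_prop] theorem pr_node {f : α → ℕ} (hf : Primrec f) : Primrec (fun x => node (f x)) := by
  unfold node; fun_prop
@[fun_prop] theorem pr_vx {f : α → ℕ} (hf : Primrec f) : Primrec (fun x => vx (f x)) := by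
  unfold vx; fun_prop
@[fun_prop] theorem pr_lab (hT : Primrec T) {f : α → ℕ} (hf : Primrec f) :
    Primrec (fun x => lab T (f x)) := by unfold lab; fun_prop
@[fun_prop] theorem pr_tok {ν : α → List ℕ} {F m s : α → ℕ} (h1 : Primrec ν)
    (h2 : Primrec F) (h3 : Primrec m) (h4 : Primrec s) :
    Primrec (fun x => tok (ν x) (F x) (m x) (s x)) := by unfold tok; fun_prop
@[fun_prop] theorem pr_tau (hT : Primrec T) (p : Bool) {f : α → ℕ} (hf : Primrec f) :
    Primrec (fun x => tau T p (f x)) := by unfold tau; fun_prop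
@[fun_prop] theorem pr_dlt {f g : α → ℕ} (hf : Primrec f) (hg : Primrec g) :
    Primrec (fun x => dlt (f x) (g x)) := by unfold dlt; fun_prop
@[fun_prop] theorem pr_key (hT : Primrec T) {f : α → ℕ} (hf : Primrec f) :
    Primrec (fun x => key T (f x)) := by unfold key; fun_prop
theorem pr_Str (hT : Primrec T) (p : Bool) : Primrec (fun q : ℕ × List ℕ => Str T p q.1 q.2) := by
  unfold Str; fun_prop
theorem cp_Str (hT : Primrec T) (p : Bool) : Computable₂ (Str T p) := (pr_Str hT p).to_comp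

end prim

variable {T : List ℕ → Bool}

@[simp] theorem node_tok (ν : List ℕ) (F m s : ℕ) : node (tok ν F m s) = ν := by simp [node, tok]
@[simp] theorem vx_tok (ν : List ℕ) (F m s : ℕ) : vx (tok ν F m s) = F := by simp [vx, tok]
theorem lab_tok (ν : List ℕ) (F m s : ℕ) :
    lab T (tok ν F m s) = cond (hasB T ν F m s) (m + 1) 0 := by
  unfold lab; rw [node_tok, vx_tok]; simp [tok]

theorem act_tail {i : ℕ} {ν : List ℕ} {s : ℕ} (h : act T (dl T) (i :: ν) s = true) :
    act T (dl T) ν s = true := by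
  rw [act_iff] at h ⊢
  exact ⟨free_tail h.1, (encode_lt_cons i ν).trans h.2⟩

theorem top_ne_zero {ν : List ℕ} {s : ℕ} :
    top T (dl T) ν s ≠ 0 ↔ ∃ u < s, act T (dl T) ν u = true := by
  constructor
  · intro h
    obtain ⟨u, hu⟩ := Nat.exists_eq_succ_of_ne_zero h
    have h1 : top T (dl T) ν s ≤ s := lastB_le _ _
    exact ⟨u, by omega, lastB_spec hu⟩
  · rintro ⟨u, h1, h2⟩
    have : u < top T (dl T) ν s := lt_lastB h2 h1
    omega

theorem sub_iff {ν : List ℕ} {F s : ℕ} : sub T ν F s = true ↔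
    ∀ i, bt i F = true → ∃ u < top T (dl T) ν s, act T (dl T) (i :: ν) u = true := by
  simp only [sub, List.all_eq_true, List.mem_range, Bool.or_eq_true, Bool.not_eq_true',
    eqb_false, top_ne_zero]
  constructor
  · intro h i hi
    rcases h i (lt_of_bt hi) with h1 | h1
    · rw [hi] at h1; exact absurd h1 (by simp)
    · exact h1
  · intro h i _
    cases hi : bt i F
    · exact Or.inl rfl
    · exact Or.inr (h i hi)

theorem hasB_iff {ν : List ℕ} {F m s : ℕ} : hasB T ν F m s = true ↔ (F = 0 ∧ m = 0) ∨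
    ∃ u < s, act T (dl T) ν u = true ∧ ((F = 0 ∧ m = u + 1) ∨ (m ≤ u ∧ sub T ν F u = true)) := by
  simp [hasB]

theorem has_iff {ν : List ℕ} {F m : ℕ} : Has T ν F m ↔ (F = 0 ∧ m = 0) ∨
    ∃ u, act T (dl T) ν u = true ∧ ((F = 0 ∧ m = u + 1) ∨ (m ≤ u ∧ sub T ν F u = true)) := by
  simp only [Has, hasB_iff]
  constructor
  · rintro ⟨s, h | ⟨u, -, h⟩⟩
    · exact Or.inl h
    · exact Or.inr ⟨u, h⟩
  · rintro (h | ⟨u, h⟩)
    · exact ⟨0, Or.inl h⟩
    · exact ⟨u + 1, Or.inr ⟨u, by omega, h⟩⟩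

theorem hasB_mono {ν : List ℕ} {F m s s' : ℕ} (h : hasB T ν F m s = true) (hs : s ≤ s') :
    hasB T ν F m s' = true := by
  rw [hasB_iff] at h ⊢
  rcases h with h | ⟨u, h1, h⟩
  · exact Or.inl h
  · exact Or.inr ⟨u, by omega, h⟩

theorem has_top (ν : List ℕ) (v : ℕ) : Has T ν 0 (top T (dl T) ν v) := by
  rw [has_iff]
  rcases h : top T (dl T) ν v with _ | u
  · exact Or.inl ⟨rfl, rfl⟩
  · exact Or.inr ⟨u, lastB_spec h, Or.inl ⟨rfl, rfl⟩⟩

theorem Has.cases {ν : List ℕ} {F m : ℕ} (h : Has T ν F m) :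
    F = 0 ∨ ∃ u, m ≤ u ∧ act T (dl T) ν u = true ∧ sub T ν F u = true := by
  rcases has_iff.1 h with h | ⟨u, h1, h | h⟩
  · exact Or.inl h.1
  · exact Or.inl h.1
  · exact Or.inr ⟨u, h.1, h1, h.2⟩

theorem Has.once {ν : List ℕ} {F m : ℕ} (h : Has T ν F m) {i : ℕ} (hi : bt i F = true) :
    Once T (i :: ν) := by
  rcases h.cases with rfl | ⟨u, -, -, h⟩
  · simp at hi
  · obtain ⟨v, -, hv⟩ := sub_iff.1 h i hi
    exact ⟨v, hv⟩

theorem Inf.has {ν : List ℕ} (hν : Inf T ν) {F : ℕ} (h : ∀ i, bt i F = true → Once T (i :: ν))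
    (m : ℕ) : Has T ν F m := by
  have h1 : ∀ k, ∃ N, ∀ i < k, bt i F = true → ∃ u < N, act T (dl T) (i :: ν) u = true := by
    intro k
    induction k with
    | zero => exact ⟨0, by simp⟩
    | succ k ih =>
      obtain ⟨N, hN⟩ := ih
      by_cases hk : bt k F = true
      · obtain ⟨v, hv⟩ := h k hk
        refine ⟨max N (v + 1), fun i hi hb => ?_⟩
        rcases Nat.lt_succ_iff_lt_or_eq.1 hi with h2 | rfl
        · obtain ⟨u, h3, h4⟩ := hN i h2 hb
          exact ⟨u, by omega, h4⟩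
        · exact ⟨v, by omega, hv⟩
      · refine ⟨N, fun i hi hb => ?_⟩
        rcases Nat.lt_succ_iff_lt_or_eq.1 hi with h2 | rfl
        · exact hN i h2 hb
        · exact absurd hb hk
  obtain ⟨N, hN⟩ := h1 F
  obtain ⟨s, hs, ha⟩ := hν (max N m)
  rw [has_iff]
  refine Or.inr ⟨s, ha, Or.inr ⟨by omega, sub_iff.2 fun i hi => ?_⟩⟩
  obtain ⟨u, h3, h4⟩ := hN i (lt_of_bt hi) hi
  exact ⟨u, lt_lastB (act_tail h4) (by omega), h4⟩

theorem sym_zero (ν : List ℕ) : Sym T ν 0 := fun F m h => by simpa using h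

theorem Inf.sym {ν : List ℕ} (hν : Inf T ν) {t : ℕ} (h : ∀ i, bt i t = true → Once T (i :: ν)) :
    Sym T ν t := fun F m hF => hν.has (fun i hi => by
  rw [bt_xor] at hi
  by_cases h1 : bt i F = true
  · exact hF.once h1
  · refine h i ?_
    revert hi h1; cases bt i F <;> simp) m

theorem Sym.xor {ν : List ℕ} {t t' : ℕ} (h : Sym T ν t) (h' : Sym T ν t') : Sym T ν (t ^^^ t') :=
  fun F m hF => by rw [← Nat.xor_assoc]; exact h' _ _ (h _ _ hF)

theorem Inf.sym_uv {ν : List ℕ} {i : ℕ} (hν : Inf T (i :: ν)) : Sym T ν (uv i) := by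
  have h1 : Inf T ν := fun n => let ⟨s, h1, h2⟩ := hν n; ⟨s, h1, act_tail h2⟩
  refine h1.sym fun j hj => ?_
  rw [bt_uv] at hj
  obtain rfl : j = i := by simpa using hj
  obtain ⟨s, -, hs⟩ := hν 0
  exact ⟨s, hs⟩

/-- a node that acts finitely often is rigid -/
theorem fin_rigid {ν : List ℕ} (hν : ¬ Inf T ν) :
    ∃ n, ∀ s, n ≤ s → ∀ F, Has T ν F (top T (dl T) ν s) → F = 0 := by
  unfold Inf at hν
  push Not at hν
  obtain ⟨n, hn⟩ := hν
  refine ⟨n, fun s hs F hF => ?_⟩
  rcases hF.cases with h | ⟨u, h1, h2, -⟩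
  · exact h
  · have h3 : u < n := by
      by_contra h3
      exact hn u (by omega) h2
    have : u < top T (dl T) ν s := lt_lastB h2 (by omega)
    omega

/-- realised triples -/
def Ok (T : List ℕ → Bool) (ν : List ℕ) (F L : ℕ) : Prop := L = 0 ∨ ∃ m, L = m + 1 ∧ Has T ν F m

theorem ok_self (x : ℕ) : Ok T (node x) (vx x) (lab T x) := by
  unfold lab
  cases h : hasB T (node x) (vx x) x.unpair.2.unpair.2.unpair.1 x.unpair.2.unpair.2.unpair.2
  · exact Or.inl rfl
  · exact Or.inr ⟨_, rfl, _, h⟩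

theorem has_of_lab {x m : ℕ} (h : lab T x = m + 1) : Has T (node x) (vx x) m := by
  rcases ok_self (T := T) x with h1 | ⟨m', h1, h2⟩
  · omega
  · obtain rfl : m' = m := by omega
    exact h2

theorem Ok.infinite {ν : List ℕ} {F L : ℕ} (h : Ok T ν F L) :
    {x | node x = ν ∧ vx x = F ∧ lab T x = L}.Infinite := by
  rcases h with rfl | ⟨m, rfl, s, hs⟩
  · refine Set.infinite_of_injective_forall_mem (f := fun m => tok ν F (m + 1) 0) ?_ ?_
    · intro a b hab
      simpa [tok] using hab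
    · intro m
      refine ⟨by simp, by simp, ?_⟩
      have : hasB T ν F (m + 1) 0 = false := by
        rw [← Bool.not_eq_true, hasB_iff]; simp
      rw [lab_tok, this]; rfl
  · refine Set.infinite_of_injective_forall_mem (f := fun k => tok ν F m (s + k)) ?_ ?_
    · intro a b hab
      simpa [tok] using hab
    · intro k
      refine ⟨by simp, by simp, ?_⟩
      rw [lab_tok, hasB_mono hs (Nat.le_add_right _ _)]; rfl

theorem Has.exists {ν : List ℕ} {F m : ℕ} (h : Has T ν F m) :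
    ∃ x, node x = ν ∧ vx x = F ∧ lab T x = m + 1 :=
  (Ok.infinite (Or.inr ⟨m, rfl, h⟩)).nonempty

theorem Ok.sym {ν : List ℕ} {F L t : ℕ} (h : Ok T ν F L) (ht : Sym T ν t) : Ok T ν (F ^^^ t) L := by
  rcases h with h | ⟨m, h1, h2⟩
  · exact Or.inl h
  · exact Or.inr ⟨m, h1, ht _ _ h2⟩

theorem keyt_eq_key {t : List ℕ → ℕ} {x y : ℕ} : keyt T t y = key T x ↔
    node y = node x ∧ vx y = vx x ^^^ t (node x) ∧ lab T y = lab T x := by
  simp only [keyt, key, Nat.pair_eq_pair, encode_inj]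
  constructor
  · rintro ⟨h1, h2, h3⟩
    refine ⟨h1, ?_, h3⟩
    rw [← h2, h1, Nat.xor_assoc, Nat.xor_self, Nat.xor_zero]
  · rintro ⟨h1, h2, h3⟩
    refine ⟨h1, ?_, h3⟩
    rw [h2, h1, Nat.xor_assoc, Nat.xor_self, Nat.xor_zero]

theorem fibre_one {t : List ℕ → ℕ} (ht : ∀ ν, Sym T ν (t ν)) {g gi : ℕ → ℕ}
    (h1 : ∀ x, gi (g x) = x) (x : ℕ) : {y | keyt T t (gi y) = key T x}.Infinite := by
  have h2 := ((ok_self (T := T) x).sym (ht _)).infinite
  refine Set.Infinite.mono ?_ (h2.image (f := g) (Function.LeftInverse.injective h1).injOn)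
  rintro _ ⟨z, hz, rfl⟩
  simp only [Set.mem_ofPred_eq, h1, keyt_eq_key]
  exact hz

theorem fibre_two {t : List ℕ → ℕ} (ht : ∀ ν, Sym T ν (t ν)) (z : ℕ) :
    {x | key T x = keyt T t z}.Infinite := by
  refine Set.Infinite.mono ?_ ((ok_self (T := T) z).sym (ht _)).infinite
  rintro x ⟨h1, h2, h3⟩
  simp only [Set.mem_ofPred_eq, key, keyt, h1, h2, h3]

theorem dlt_same {x y : ℕ} (h : node x = node y) : dlt x y = vx x ^^^ vx y := by
  rw [dlt, eqb_true.2 h]; rfl

theorem dlt_child {x y j : ℕ} (h : node y = j :: node x) :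
    dlt x y = (xor (bt j (vx x)) (par (vx y))).toNat := by
  have h1 : node x ≠ node y := by rw [h]; exact (List.cons_ne_self _ _).symm
  have h2 : node x = (node y).tail := by rw [h]; rfl
  rw [dlt, eqb_false.2 h1, eqb_true.2 h2, h]; rfl

theorem dlt_child_zero {x y j : ℕ} (h : node y = j :: node x) :
    dlt x y = 0 ↔ bt j (vx x) = par (vx y) := by
  rw [dlt_child h]; cases bt j (vx x) <;> cases par (vx y) <;> simp

theorem Str_one (p : Bool) (i x : ℕ) : Str T p i [x] = eqb i (tau T p x) := rfl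
theorem Str_two (p : Bool) (i x y : ℕ) : Str T p i [x, y] = eqb i (dlt x y) := rfl

/-- criterion for isomorphisms -/
theorem iso_of {p p' : Bool} {t : List ℕ → ℕ} {h : ℕ → ℕ} (hh : ∀ x, keyt T t (h x) = key T x)
    (ht : ∀ i ν, bt i (t ν) = par (t (i :: ν))) (h0 : par (t []) = xor p p') (i : ℕ)
    (xs : List ℕ) : Str T p i xs = Str T p' i (xs.map h) := by
  simp only [keyt_eq_key] at hh
  have e1 : ∀ x, tau T p x = tau T p' (h x) := by
    intro x
    obtain ⟨h1, h2, h3⟩ := hh x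
    unfold tau
    rw [h1, h2, h3]
    by_cases hx : node x = []
    · rw [hx, par_xor, h0]
      cases par (vx x) <;> cases p <;> cases p' <;> rfl
    · rw [eqb_false.2 hx]; rfl
  have e2 : ∀ x y, dlt x y = dlt (h x) (h y) := by
    intro x y
    obtain ⟨h1, h2, -⟩ := hh x
    obtain ⟨h3, h4, -⟩ := hh y
    by_cases hxy : node x = node y
    · rw [dlt_same hxy, dlt_same (by rw [h1, h3, hxy]), h2, h4, hxy, Nat.xor_assoc,
        Nat.xor_comm (vx y), ← Nat.xor_assoc (t _), Nat.xor_self, Nat.zero_xor]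
    · by_cases hc : node x = (node y).tail
      · obtain ⟨j, hj⟩ : ∃ j, node y = j :: node x := by
          rcases hy : node y with _ | ⟨j, μ⟩
          · rw [hy] at hc hxy; exact absurd hc hxy
          · rw [hy] at hc; exact ⟨j, by rw [hc]; rfl⟩
        rw [dlt_child hj, dlt_child (j := j) (by rw [h1, h3, hj]), h2, h4, bt_xor, par_xor, hj,
          ht]
        cases bt j (vx x) <;> cases par (vx y) <;> cases par (t (j :: node x)) <;> rfl
      · unfold dlt
        rw [h1, h3, eqb_false.2 hxy, eqb_false.2 hc]; rfl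
  rcases xs with _ | ⟨x, _ | ⟨y, _ | ⟨z, xs⟩⟩⟩
  · rfl
  · rw [List.map_singleton, Str_one, Str_one, e1]
  · change _ = Str T p' i [h x, h y]
    rw [Str_two, Str_two, e2]
  · have h3 : ∀ (l : List ℕ) (q : Bool), 3 ≤ l.length → Str T q i l = false := by
      intro l q hl
      unfold Str
      rw [eqb_false.2 (show l.length ≠ 1 by omega), eqb_false.2 (show l.length ≠ 2 by omega)]; rfl
    rw [h3 _ _ (by simp), h3 _ _ (by simp)]

theorem free_inf {β ν : List ℕ} (hβ : Tru T β) (hν : free T β ν = true) : Inf T ν := by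
  intro n
  obtain ⟨s, h1, h2⟩ := hβ (max n (encode ν + 1))
  exact ⟨s, by omega, act_iff.2 ⟨free_mono hν h2, by omega⟩⟩

theorem Inf.tru {ν : List ℕ} (h : Inf T ν) : Tru T (own ν) := fun n =>
  let ⟨s, h1, h2⟩ := h n; ⟨s, h1, free_own (act_iff.1 h2).1⟩

theorem Inf.valid {ν : List ℕ} (h : Inf T ν) : valid T ν = true :=
  let ⟨_, _, h2⟩ := h 0; free_valid (act_iff.1 h2).1

end Pool.Agent.P.MP_599875_lc
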