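import Pool.Agent.Lib.Comp.Oracle

/-! General tools: bit arithmetic, `fun_prop` for `Computable`, matching of fibres, oracles. -/

namespace Pool.Agent.P.MP_599875_lc

open Pool.Agent.Lib.Comp Encodable

section prim
variable {α β σ : Type*} [Primcodable α] [Primcodable β] [Primcodable σ]

@[fun_prop] theorem pr_listRec {f : α → List β} {d : α → σ} {g : α → β → List β → σ → σ}
    (hf : Primrec f) (hd : Primrec d)
    (hg : Primrec (fun p : α × β × List β × σ => g p.1 p.2.1 p.2.2.1 p.2.2.2)) :
    Primrec (fun x => (List.rec (motive := fun _ => σ) (d x) (g x) (f x) : σ)) :=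
  Primrec.list_rec (h := fun a p => g a p.1 p.2.1 p.2.2) hf hd hg

@[fun_prop] theorem pr_tail {f : α → List β} (hf : Primrec f) : Primrec (fun x => (f x).tail) :=
  Primrec.list_tail.comp hf

@[fun_prop] theorem pr_reverse {f : α → List β} (hf : Primrec f) :
    Primrec (fun x => (f x).reverse) := Primrec.list_reverse.comp hf

@[fun_prop] theorem pr_two_pow {f : α → ℕ} (hf : Primrec f) : Primrec (fun x => 2 ^ f x) := by
  have h : Primrec (fun x => (Nat.rec (motive := fun _ => ℕ) 1 (fun _ r => r * 2) (f x) : ℕ)) := by
    fun_prop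
  refine h.of_eq fun x => ?_
  induction f x with
  | zero => rfl
  | succ n ih => simp only [pow_succ, ← ih]

@[fun_prop] theorem pr_testBit {f g : α → ℕ} (hf : Primrec f) (hg : Primrec g) :
    Primrec (fun x => (f x).testBit (g x)) := by
  have h : Primrec (fun x => eqb (f x / 2 ^ g x % 2) 1) := by fun_prop
  exact h.of_eq fun x => by rw [Nat.testBit_eq_decide_div_mod_eq]; rfl

@[fun_prop] theorem pr_bxor {f g : α → Bool} (hf : Primrec f) (hg : Primrec g) :
    Primrec (fun x => xor (f x) (g x)) := by
  have h : Primrec (fun x => cond (f x) (!g x) (g x)) := by fun_prop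
  exact h.of_eq fun x => by cases f x <;> cases g x <;> rfl

@[fun_prop] theorem pr_toNat {f : α → Bool} (hf : Primrec f) :
    Primrec (fun x => (f x).toNat) := by
  have h : Primrec (fun x => cond (f x) 1 0) := by fun_prop
  exact h.of_eq fun x => by cases f x <;> rfl

theorem horner (P : ℕ → Bool) (n k : ℕ) :
    ∀ i, ((List.range' k n).foldr (fun j r => (P j).toNat + 2 * r) 0).testBit i =
      (decide (i < n) && P (k + i)) := by
  induction n generalizing k with
  | zero => simp
  | succ n ih =>
    intro i
    rw [List.range'_succ, List.foldr_cons]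
    rcases i with _ | i
    · rw [Nat.testBit_zero]
      cases h : P k <;> simp [Nat.add_mod, h]
    · rw [Nat.testBit_succ]
      have : ((P k).toNat + 2 * (List.range' (k + 1) n).foldr (fun j r => (P j).toNat + 2 * r) 0) / 2
          = (List.range' (k + 1) n).foldr (fun j r => (P j).toNat + 2 * r) 0 := by
        cases P k <;> simp <;> omega
      rw [this, ih]
      simp [Nat.add_assoc, Nat.add_comm 1 i]

theorem lt_of_testBit {F i : ℕ} (h : F.testBit i = true) : i < F :=
  lt_of_lt_of_le (Nat.lt_two_pow_self) (Nat.ge_two_pow_of_testBit h)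

@[fun_prop] theorem pr_xor {f g : α → ℕ} (hf : Primrec f) (hg : Primrec g) :
    Primrec (fun x => f x ^^^ g x) := by
  have h : Primrec (fun x => (List.range (f x + g x)).foldr
      (fun j r => (xor ((f x).testBit j) ((g x).testBit j)).toNat + 2 * r) 0) := by fun_prop
  refine h.of_eq fun x => Nat.eq_of_testBit_eq fun i => ?_
  rw [List.range_eq_range', horner, Nat.testBit_xor, zero_add]
  by_cases hi : i < f x + g x
  · simp [hi]
  · have h1 : (f x).testBit i = false := by
      by_contra h
      have := lt_of_testBit (Bool.not_eq_false _ ▸ h)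
      omega
    have h2 : (g x).testBit i = false := by
      by_contra h
      have := lt_of_testBit (Bool.not_eq_false _ ▸ h)
      omega
    simp [h1, h2]

end prim

/-- Coordinate `i` of a vertex of the cube (Gray code). -/
def bt (i F : ℕ) : Bool := xor (F.testBit i) (F.testBit (i + 1))
/-- Parity of a vertex of the cube. -/
def par (F : ℕ) : Bool := F.testBit 0
/-- Unit vector in direction `i`. -/
def uv (i : ℕ) : ℕ := 2 ^ (i + 1) - 1

@[fun_prop] theorem pr_bt {α : Type*} [Primcodable α] {f g : α → ℕ} (hf : Primrec f)
    (hg : Primrec g) : Primrec (fun x => bt (f x) (g x)) := by unfold bt; fun_prop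
@[fun_prop] theorem pr_par {α : Type*} [Primcodable α] {f : α → ℕ} (hf : Primrec f) :
    Primrec (fun x => par (f x)) := by unfold par; fun_prop
@[fun_prop] theorem pr_uv {α : Type*} [Primcodable α] {f : α → ℕ} (hf : Primrec f) :
    Primrec (fun x => uv (f x)) := by unfold uv; fun_prop

theorem bt_xor (i F G : ℕ) : bt i (F ^^^ G) = xor (bt i F) (bt i G) := by
  simp only [bt, Nat.testBit_xor]
  cases F.testBit i <;> cases G.testBit i <;> cases F.testBit (i + 1) <;>
    cases G.testBit (i + 1) <;> rfl
theorem par_xor (F G : ℕ) : par (F ^^^ G) = xor (par F) (par G) := by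
  simp only [par, Nat.testBit_xor]
@[simp] theorem bt_zero (i : ℕ) : bt i 0 = false := by simp [bt]
@[simp] theorem par_zero : par 0 = false := by simp [par]
@[simp] theorem par_uv (i : ℕ) : par (uv i) = true := by
  simp only [par, uv, Nat.testBit_two_pow_sub_one]; simp
theorem bt_uv (i j : ℕ) : bt j (uv i) = decide (j = i) := by
  simp only [bt, uv, Nat.testBit_two_pow_sub_one]
  by_cases h1 : j < i
  · have : j ≠ i := by omega
    have h2 : j < i + 1 := by omega
    simp [h1, h2, this]
  · by_cases h2 : j = i
    · subst h2; simp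
    · have h3 : ¬ j < i + 1 := by omega
      simp [h1, h2, h3]
theorem lt_of_bt {i F : ℕ} (h : bt i F = true) : i < F := by
  unfold bt at h
  by_cases h1 : F.testBit i = true
  · exact lt_of_testBit h1
  · have h2 : F.testBit (i + 1) = true := by
      revert h; cases F.testBit (i + 1) <;> simp [h1]
    have := lt_of_testBit h2
    omega
theorem eq_zero_of_bt {F : ℕ} (h : ∀ i, bt i F = false) : F = 0 := by
  have h1 : ∀ i, F.testBit i = F.testBit 0 := by
    intro i
    induction i with
    | zero => rfl
    | succ i ih =>
      have := h i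
      unfold bt at this
      rw [← ih]
      revert this; cases F.testBit i <;> cases F.testBit (i + 1) <;> simp
  have h2 : F.testBit F = false := by
    by_contra h
    exact lt_irrefl _ (lt_of_testBit (Bool.not_eq_false _ ▸ h))
  refine Nat.eq_of_testBit_eq fun i => ?_
  rw [h1 i, ← h1 F, h2, Nat.zero_testBit]

attribute [fun_prop] Computable

section comp
variable {α β γ σ : Type*} [Primcodable α] [Primcodable β] [Primcodable γ] [Primcodable σ]

@[fun_prop] theorem cp_id : Computable (fun x : α => x) := Computable.id
@[fun_prop] theorem cp_const (b : β) : Computable (fun _ : α => b) := Computable.const b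
@[fun_prop] theorem cp_comp {f : β → γ} {g : α → β} (hf : Computable f) (hg : Computable g) :
    Computable (fun x => f (g x)) := hf.comp hg
@[fun_prop] theorem cp_pair {f : α → β} {g : α → γ} (hf : Computable f) (hg : Computable g) :
    Computable (fun x => (f x, g x)) := hf.pair hg
@[fun_prop] theorem cp_fst {f : α → β × γ} (hf : Computable f) : Computable (fun x => (f x).1) :=
  Computable.fst.comp hf
@[fun_prop] theorem cp_snd {f : α → β × γ} (hf : Computable f) : Computable (fun x => (f x).2) :=
  Computable.snd.comp hf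
@[fun_prop] theorem cp_cond {c : α → Bool} {f g : α → σ} (hc : Computable c) (hf : Computable f)
    (hg : Computable g) : Computable (fun x => cond (c x) (f x) (g x)) := Computable.cond hc hf hg
@[fun_prop] theorem cp_natRec {f : α → ℕ} {d : α → σ} {g : α → ℕ → σ → σ} (hf : Computable f)
    (hd : Computable d) (hg : Computable (fun p : α × ℕ × σ => g p.1 p.2.1 p.2.2)) :
    Computable (fun x => (Nat.rec (motive := fun _ => σ) (d x) (g x) (f x) : σ)) :=
  Computable.nat_rec (h := fun a p => g a p.1 p.2) hf hd hg

theorem cp_of1 {F : β → γ} (hF : Primrec F) {f : α → β} (hf : Computable f) :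
    Computable (fun x => F (f x)) := hF.to_comp.comp hf
theorem cp_of2 {F : β → γ → σ} (hF : Primrec (fun p : β × γ => F p.1 p.2)) {f : α → β}
    {g : α → γ} (hf : Computable f) (hg : Computable g) :
    Computable (fun x => F (f x) (g x)) := hF.to_comp.comp (hf.pair hg)

@[fun_prop] theorem cp_add {f g : α → ℕ} (hf : Computable f) (hg : Computable g) :
    Computable (fun x => f x + g x) := cp_of2 (F := (· + ·)) (by fun_prop) hf hg
@[fun_prop] theorem cp_sub {f g : α → ℕ} (hf : Computable f) (hg : Computable g) :
    Computable (fun x => f x - g x) := cp_of2 (F := (· - ·)) (by fun_prop) hf hg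
@[fun_prop] theorem cp_mul {f g : α → ℕ} (hf : Computable f) (hg : Computable g) :
    Computable (fun x => f x * g x) := cp_of2 (F := (· * ·)) (by fun_prop) hf hg
@[fun_prop] theorem cp_div {f g : α → ℕ} (hf : Computable f) (hg : Computable g) :
    Computable (fun x => f x / g x) := cp_of2 (F := (· / ·)) (by fun_prop) hf hg
@[fun_prop] theorem cp_xor {f g : α → ℕ} (hf : Computable f) (hg : Computable g) :
    Computable (fun x => f x ^^^ g x) := cp_of2 (F := (· ^^^ ·)) (by fun_prop) hf hg
@[fun_prop] theorem cp_natPair {f g : α → ℕ} (hf : Computable f) (hg : Computable g) :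
    Computable (fun x => Nat.pair (f x) (g x)) := cp_of2 (F := Nat.pair) (by fun_prop) hf hg
@[fun_prop] theorem cp_unpair {f : α → ℕ} (hf : Computable f) :
    Computable (fun x => Nat.unpair (f x)) := cp_of1 (F := Nat.unpair) (by fun_prop) hf
@[fun_prop] theorem cp_encode {f : α → β} (hf : Computable f) :
    Computable (fun x => encode (f x)) := Computable.encode.comp hf
@[fun_prop] theorem cp_ofNat {δ : Type*} [Denumerable δ] {f : α → ℕ} (hf : Computable f) :
    Computable (fun x => Denumerable.ofNat δ (f x)) := (Computable.ofNat δ).comp hf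
@[fun_prop] theorem cp_not {f : α → Bool} (hf : Computable f) : Computable (fun x => !f x) :=
  cp_of1 (F := not) (by fun_prop) hf
@[fun_prop] theorem cp_and {f g : α → Bool} (hf : Computable f) (hg : Computable g) :
    Computable (fun x => f x && g x) := cp_of2 (F := and) (by fun_prop) hf hg
@[fun_prop] theorem cp_or {f g : α → Bool} (hf : Computable f) (hg : Computable g) :
    Computable (fun x => f x || g x) := cp_of2 (F := or) (by fun_prop) hf hg
@[fun_prop] theorem cp_eqb [DecidableEq β] {f g : α → β} (hf : Computable f) (hg : Computable g) :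
    Computable (fun x => eqb (f x) (g x)) := cp_of2 (F := eqb) (by fun_prop) hf hg
@[fun_prop] theorem cp_ltb {f g : α → ℕ} (hf : Computable f) (hg : Computable g) :
    Computable (fun x => ltb (f x) (g x)) := cp_of2 (F := ltb) (by fun_prop) hf hg
@[fun_prop] theorem cp_leb {f g : α → ℕ} (hf : Computable f) (hg : Computable g) :
    Computable (fun x => leb (f x) (g x)) := cp_of2 (F := leb) (by fun_prop) hf hg
@[fun_prop] theorem cp_cons {f : α → β} {g : α → List β} (hf : Computable f) (hg : Computable g) :
    Computable (fun x => f x :: g x) := Computable.list_cons.comp hf hg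
@[fun_prop] theorem cp_length {f : α → List β} (hf : Computable f) :
    Computable (fun x => (f x).length) := Computable.list_length.comp hf
@[fun_prop] theorem cp_drop {f : α → ℕ} {g : α → List β} (hf : Computable f) (hg : Computable g) :
    Computable (fun x => (g x).drop (f x)) :=
  cp_of2 (F := fun (n : ℕ) (l : List β) => l.drop n) (by fun_prop) hf hg
@[fun_prop] theorem cp_tail {f : α → List β} (hf : Computable f) :
    Computable (fun x => (f x).tail) := cp_of1 (F := List.tail) (by fun_prop) hf
@[fun_prop] theorem cp_getD {f : α → List ℕ} {g : α → ℕ} (hf : Computable f) (hg : Computable g) :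
    Computable (fun x => (f x).getD (g x) 0) :=
  cp_of2 (F := fun (l : List ℕ) (n : ℕ) => l.getD n 0) (by fun_prop) hf hg
@[fun_prop] theorem cp_toNat {f : α → Bool} (hf : Computable f) :
    Computable (fun x => (f x).toNat) := cp_of1 (F := Bool.toNat) (by fun_prop) hf
@[fun_prop] theorem cp_uv {f : α → ℕ} (hf : Computable f) :
    Computable (fun x => uv (f x)) := cp_of1 (F := uv) (by fun_prop) hf

theorem cp_find {P : α → ℕ → Bool} (hP : Computable (fun p : α × ℕ => P p.1 p.2))
    (hex : ∀ a, ∃ n, P a n = true) : Computable (fun a => Nat.find (hex a)) :=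
  Computable.find (P := fun a n => P a n = true)
    (Computable.computablePred (by simpa using hP)) hex

/-- the number of `y < n` with `P y` -/
def cnt (P : ℕ → Bool) (n : ℕ) : ℕ := Nat.rec 0 (fun y r => r + (P y).toNat) n

theorem cnt_eq (P : ℕ → Bool) (n : ℕ) : cnt P n = Nat.count (fun y => P y = true) n := by
  induction n with
  | zero => rfl
  | succ n ih =>
    rw [Nat.count_succ, ← ih]
    change cnt P n + (P n).toNat = _
    cases P n <;> simp

@[fun_prop] theorem cp_cnt {P : α → ℕ → Bool} {f : α → ℕ}
    (hP : Computable (fun p : α × ℕ => P p.1 p.2)) (hf : Computable f) :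
    Computable (fun x => cnt (P x) (f x)) := by
  unfold cnt
  fun_prop

end comp

/-- Matching of fibres. -/
noncomputable def mt (a c : ℕ → ℕ) (x : ℕ) : ℕ :=
  Nat.nth (fun y => c y = a x) (Nat.count (fun y => a y = a x) x)

theorem mt_spec {a c : ℕ → ℕ} (ha : ∀ x, {y | c y = a x}.Infinite) (x : ℕ) :
    c (mt a c x) = a x ∧ Nat.count (fun y => c y = a x) (mt a c x) =
      Nat.count (fun y => a y = a x) x :=
  ⟨Nat.nth_mem_of_infinite (p := fun y => c y = a x) (ha x) _,
    Nat.count_nth_of_infinite (p := fun y => c y = a x) (ha x) _⟩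

theorem mt_unique {a c : ℕ → ℕ} {x y : ℕ} (h1 : c y = a x)
    (h2 : Nat.count (fun y => c y = a x) y = Nat.count (fun y => a y = a x) x) :
    mt a c x = y := by
  unfold mt
  rw [← h2]
  exact Nat.nth_count (p := fun y => c y = a x) h1

theorem mt_bijective {a c : ℕ → ℕ} (ha : ∀ x, {y | c y = a x}.Infinite)
    (hc : ∀ y, {x | a x = c y}.Infinite) : Function.Bijective (mt a c) := by
  have h1 : ∀ {a c : ℕ → ℕ}, (∀ x, {y | c y = a x}.Infinite) → ∀ x, mt c a (mt a c x) = x := by
    intro a c ha x
    obtain ⟨e1, e2⟩ := mt_spec ha x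
    refine mt_unique e1.symm ?_
    simp only [e1, e2]
  exact ⟨Function.LeftInverse.injective (h1 ha), Function.RightInverse.surjective (h1 hc)⟩

/-- reversed initial segment -/
def rev (p : ℕ → ℕ) (n : ℕ) : List ℕ := Nat.rec [] (fun k l => p k :: l) n

@[simp] theorem rev_zero (p : ℕ → ℕ) : rev p 0 = [] := rfl
@[simp] theorem rev_succ (p : ℕ → ℕ) (n : ℕ) : rev p (n + 1) = p n :: rev p n := rfl
@[simp] theorem length_rev (p : ℕ → ℕ) (n : ℕ) : (rev p n).length = n := by
  induction n with
  | zero => rfl
  | succ n ih => simp [ih]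

theorem drop_rev (p : ℕ → ℕ) {n k : ℕ} (h : k ≤ n) : (rev p n).drop (n - k) = rev p k := by
  induction n with
  | zero => obtain rfl : k = 0 := by omega
            rfl
  | succ n ih =>
    rcases Nat.lt_or_ge n k with h1 | h1
    · obtain rfl : k = n + 1 := by omega
      simp
    · rw [show n + 1 - k = (n - k) + 1 by omega, rev_succ, List.drop_succ_cons, ih h1]

theorem reverse_rev (p : ℕ → ℕ) (n : ℕ) : (rev p n).reverse = (List.range n).map p := by
  induction n with
  | zero => rfl
  | succ n ih => simp [ih, List.range_succ]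

section oracle
variable {O : Set (ℕ →. ℕ)}

theorem totIn_rev {p : ℕ → ℕ} (hp : Nat.RecursiveIn O (fun n => Part.some (p n))) :
    Nat.RecursiveIn O (fun n => Part.some (encode (rev p n.unpair.2))) := by
  have h1 : Nat.RecursiveIn O (fun n => Part.some
      (Nat.pair (p n.unpair.2.unpair.1) n.unpair.2.unpair.2 + 1)) :=
    totIn_comp (f := fun m => m + 1) (totIn_primrec (by fun_prop))
      (totIn_pair (totIn_comp hp (totIn_primrec (by fun_prop))) (totIn_primrec (by fun_prop)))
  have h3 := (totIn_primrec (O := O) (f := fun _ => 0) (by fun_prop)).prec h1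
  refine h3.of_eq fun q => ?_
  simp only
  generalize q.unpair.1 = a
  generalize q.unpair.2 = n
  induction n with
  | zero => rfl
  | succ n ih =>
    simp only [Part.bind_eq_bind, Nat.unpair_pair] at ih ⊢
    rw [ih]
    simp

/-- A function obtained from initial segments of `p` by a recursive procedure. -/
theorem recIn_of_seg {p f : ℕ → ℕ} (hp : Nat.RecursiveIn O (fun n => Part.some (p n)))
    {h : ℕ → ℕ} (hh : Primrec h) {Ψ : ℕ × List ℕ →. ℕ} (hΨ : Partrec Ψ)
    (H : ∀ x, f x ∈ Ψ (x, rev p (h x))) : Nat.RecursiveIn O (fun n => Part.some (f n)) := by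
  have h1 : Nat.RecursiveIn O (fun x => Part.some (Nat.pair x (encode (rev p (h x))))) := by
    have := totIn_comp (totIn_rev hp) (totIn_primrec (O := O)
      (f := fun x => Nat.pair x (h x)) (by fun_prop))
    exact totIn_pair (totIn_primrec (f := fun x => x) (by fun_prop)) (by simpa using this)
  have h2 : Nat.Partrec (fun m => Ψ (m.unpair.1, Denumerable.ofNat (List ℕ) m.unpair.2)) :=
    Partrec.nat_iff.1 (hΨ.comp (by fun_prop))
  refine ((Nat.Partrec.recursiveIn (O := O) h2).comp h1).of_eq fun x => ?_
  simp only [Part.bind_eq_bind, Part.bind_some, Nat.unpair_pair, Denumerable.ofNat_encode]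
  exact Part.eq_some_iff.2 (H x)

theorem totIn_inv {f g : ℕ → ℕ} (hf : Nat.RecursiveIn O (fun n => Part.some (f n)))
    (hi : Function.Injective f) (hg : ∀ y, f (g y) = y) :
    Nat.RecursiveIn O (fun n => Part.some (g n)) := by
  have h1 : Nat.RecursiveIn O (fun n => Part.some (Nat.pair n.unpair.1 (f n.unpair.2))) :=
    totIn_pair (totIn_primrec (by fun_prop)) (totIn_comp hf (totIn_primrec (by fun_prop)))
  have h2 := totIn_comp (totIn_primrec (O := O)
    (f := fun m => cond (eqb m.unpair.1 m.unpair.2) 0 1) (by fun_prop)) h1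
  refine h2.rfind.of_eq fun y => Part.eq_some_iff.2 ?_
  simp only [Nat.unpair_pair, Nat.mem_rfind, Part.map_eq_map, Part.map_some, Part.mem_some_iff]
  constructor
  · simp [hg, eqb]
  · intro m hm
    have : y ≠ f m := fun h => by
      have := hi ((hg y).trans h)
      omega
    simp [eqb, this]

end oracle

end Pool.Agent.P.MP_599875_lc
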