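import Pool.Agent.P.MP_599875_lc.Tools

/-! The nodes of the structure and the tree of strategies. -/

namespace Pool.Agent.P.MP_599875_lc

open Pool.Agent.Lib.Comp Encodable Denumerable
open Nat.Partrec (Code)

/-- connector nodes -/
def conn (ν : List ℕ) : Bool := List.rec false (fun i _ r => !r && i.bodd) ν
/-- the owner of a node -/
def own (ν : List ℕ) : List ℕ :=
  List.rec [] (fun i μ r => cond (conn μ) (cond (eqb i 1) 0 (μ.getD 0 0 / 2 + 1) :: r) r) ν
/-- the string of the tree since the last restart -/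
def str (ν : List ℕ) : List ℕ := List.rec [] (fun i μ r => cond (conn μ) [] (i / 2 :: r)) ν
/-- the last connector below a node -/
def anc (ν : List ℕ) : List ℕ := List.rec [] (fun _ μ r => cond (conn μ) μ r) ν
/-- valid nodes -/
def valid (T : List ℕ → Bool) (ν : List ℕ) : Bool :=
  List.rec true (fun i μ r => r && cond (conn μ) (leb i 1) (i.bodd || T (i / 2 :: str μ))) ν
/-- suffix test -/
def sfx (θ l : List ℕ) : Bool := eqb θ (l.drop (l.length - θ.length))
/-- a valid node whose owner is an initial segment of `l` -/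
def free (T : List ℕ → Bool) (l ν : List ℕ) : Bool :=
  valid T ν && cond (conn ν) (sfx (own (0 :: ν)) l || sfx (own (1 :: ν)) l) (sfx (own ν) l)
/-- one plus the last `u < s` with `P u` -/
def lastB (P : ℕ → Bool) (s : ℕ) : ℕ := Nat.rec 0 (fun u r => cond (P u) (u + 1) r) s

section defs
variable (T : List ℕ → Bool) (d : ℕ → List ℕ)

/-- the node acts at stage `s` -/
def act (ν : List ℕ) (s : ℕ) : Bool := free T (d s) ν && ltb (encode ν) s
/-- the top label -/
def top (ν : List ℕ) (s : ℕ) : ℕ := lastB (act T d ν) s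
/-- one plus the last expansionary stage -/
def lst (β : List ℕ) (s : ℕ) : ℕ := lastB (fun u => sfx (0 :: β) (d u)) s
/-- the label used to choose the origin of a node -/
def mlab (β ν : List ℕ) (s : ℕ) : ℕ :=
  Nat.rec 0 (fun u r => cond (eqb r 0 && leb (encode ν) u && sfx (0 :: β) (d u))
    (top T d ν (u + 1) + 1) r) s
/-- clocked query to a structure -/
def qry (c : Code) (i : ℕ) (xs : List ℕ) (s : ℕ) : Bool :=
  eqb (Code.evaln s c (encode (i, xs))) (some 1)
/-- least witness -/
def wit (c : Code) (i s : ℕ) : Option ℕ :=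
  ((List.range s).find? (fun w => qry c i [w.unpair.1] w)).map (fun w => w.unpair.1)
/-- code of a unary type -/
def ty (ν : List ℕ) (L : ℕ) : ℕ := Nat.pair (encode ν) (Nat.pair L 0)
/-- the check for one node -/
def chk1 (c : Code) (β ν : List ℕ) (s : ℕ) : Bool :=
  free T β ν || (wit c (ty ν (mlab T d β ν s)) s).elim false (fun y =>
    (List.range s).any (fun z => qry c (ty ν (top T d ν s + 1)) [z] s && qry c 0 [y, z] s) &&
    (free T β ν.tail || (wit c (ty ν.tail (mlab T d β ν.tail s)) s).elim false (fun y' =>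
      qry c 0 [y', y] s)))
/-- expansionary stages -/
def expn (β : List ℕ) (s : ℕ) : Bool :=
  cond β.length.bodd (Code.evaln s (ofNat Code (β.length / 2)) 0).isSome
    ((List.range (lst d β s)).all fun n =>
      chk1 T d (ofNat Code (β.length / 2)) β (ofNat (List ℕ) n) s)
/-- the outcome -/
def out (β : List ℕ) (s : ℕ) : ℕ := cond (expn T d β s) 0 (lst d β s + 1)
/-- the node of level `e` visited at stage `s` -/
def nd (s e : ℕ) : List ℕ := Nat.rec [] (fun _ θ => out T d θ s :: θ) e

/-- the history of the construction -/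
def hist (s : ℕ) : List (List ℕ) :=
  Nat.rec [] (fun s H => H ++ [nd T (fun u => H.getD u []) s s]) s
/-- the approximation to the true path -/
def dl (s : ℕ) : List ℕ := (hist T (s + 1)).getD s []

end defs

section prim
variable {α : Type*} [Primcodable α]

@[fun_prop] theorem pr_conn {f : α → List ℕ} (hf : Primrec f) : Primrec (fun x => conn (f x)) := by
  unfold conn; fun_prop
@[fun_prop] theorem pr_own {f : α → List ℕ} (hf : Primrec f) : Primrec (fun x => own (f x)) := by
  unfold own; fun_prop
@[fun_prop] theorem pr_str {f : α → List ℕ} (hf : Primrec f) : Primrec (fun x => str (f x)) := by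
  unfold str; fun_prop
@[fun_prop] theorem pr_anc {f : α → List ℕ} (hf : Primrec f) : Primrec (fun x => anc (f x)) := by
  unfold anc; fun_prop
@[fun_prop] theorem pr_sfx {f g : α → List ℕ} (hf : Primrec f) (hg : Primrec g) :
    Primrec (fun x => sfx (f x) (g x)) := by unfold sfx; fun_prop
@[fun_prop] theorem pr_lastB {P : α → ℕ → Bool} {f : α → ℕ}
    (hP : Primrec (fun p : α × ℕ => P p.1 p.2)) (hf : Primrec f) :
    Primrec (fun x => lastB (P x) (f x)) := by unfold lastB; fun_prop
@[fun_prop] theorem pr_qry {c : α → Code} {i s : α → ℕ} {xs : α → List ℕ} (hc : Primrec c)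
    (hi : Primrec i) (hx : Primrec xs) (hs : Primrec s) :
    Primrec (fun x => qry (c x) (i x) (xs x) (s x)) := by unfold qry; fun_prop
@[fun_prop] theorem pr_wit {c : α → Code} {i s : α → ℕ} (hc : Primrec c)
    (hi : Primrec i) (hs : Primrec s) :
    Primrec (fun x => wit (c x) (i x) (s x)) := by unfold wit; fun_prop
@[fun_prop] theorem pr_ty {ν : α → List ℕ} {L : α → ℕ} (h1 : Primrec ν) (h2 : Primrec L) :
    Primrec (fun x => ty (ν x) (L x)) := by unfold ty; fun_prop

variable {T : List ℕ → Bool}

@[fun_prop] theorem pr_valid (hT : Primrec T) {f : α → List ℕ} (hf : Primrec f) :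
    Primrec (fun x => valid T (f x)) := by unfold valid; fun_prop
@[fun_prop] theorem pr_free (hT : Primrec T) {f g : α → List ℕ} (hf : Primrec f) (hg : Primrec g) :
    Primrec (fun x => free T (f x) (g x)) := by unfold free; fun_prop

variable {d : α → ℕ → List ℕ}

@[fun_prop] theorem pr_act (hT : Primrec T) (hd : Primrec (fun p : α × ℕ => d p.1 p.2))
    {ν : α → List ℕ} {s : α → ℕ} (h1 : Primrec ν) (h2 : Primrec s) :
    Primrec (fun x => act T (d x) (ν x) (s x)) := by unfold act; fun_prop
@[fun_prop] theorem pr_top (hT : Primrec T) (hd : Primrec (fun p : α × ℕ => d p.1 p.2))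
    {ν : α → List ℕ} {s : α → ℕ} (h1 : Primrec ν) (h2 : Primrec s) :
    Primrec (fun x => top T (d x) (ν x) (s x)) := by unfold top; fun_prop
@[fun_prop] theorem pr_lst (hd : Primrec (fun p : α × ℕ => d p.1 p.2))
    {ν : α → List ℕ} {s : α → ℕ} (h1 : Primrec ν) (h2 : Primrec s) :
    Primrec (fun x => lst (d x) (ν x) (s x)) := by unfold lst; fun_prop
@[fun_prop] theorem pr_mlab (hT : Primrec T) (hd : Primrec (fun p : α × ℕ => d p.1 p.2))
    {β ν : α → List ℕ} {s : α → ℕ} (h0 : Primrec β) (h1 : Primrec ν) (h2 : Primrec s) :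
    Primrec (fun x => mlab T (d x) (β x) (ν x) (s x)) := by unfold mlab; fun_prop
@[fun_prop] theorem pr_chk1 (hT : Primrec T) (hd : Primrec (fun p : α × ℕ => d p.1 p.2))
    {c : α → Code} {β ν : α → List ℕ} {s : α → ℕ} (hc : Primrec c) (h0 : Primrec β)
    (h1 : Primrec ν) (h2 : Primrec s) :
    Primrec (fun x => chk1 T (d x) (c x) (β x) (ν x) (s x)) := by unfold chk1; fun_prop
@[fun_prop] theorem pr_expn (hT : Primrec T) (hd : Primrec (fun p : α × ℕ => d p.1 p.2))
    {β : α → List ℕ} {s : α → ℕ} (h1 : Primrec β) (h2 : Primrec s) :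
    Primrec (fun x => expn T (d x) (β x) (s x)) := by unfold expn; fun_prop
@[fun_prop] theorem pr_out (hT : Primrec T) (hd : Primrec (fun p : α × ℕ => d p.1 p.2))
    {β : α → List ℕ} {s : α → ℕ} (h1 : Primrec β) (h2 : Primrec s) :
    Primrec (fun x => out T (d x) (β x) (s x)) := by unfold out; fun_prop
@[fun_prop] theorem pr_nd (hT : Primrec T) (hd : Primrec (fun p : α × ℕ => d p.1 p.2))
    {e s : α → ℕ} (h1 : Primrec s) (h2 : Primrec e) :
    Primrec (fun x => nd T (d x) (s x) (e x)) := by unfold nd; fun_prop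
theorem pr_hist (hT : Primrec T) : Primrec (hist T) := by unfold hist; fun_prop
theorem pr_dl (hT : Primrec T) : Primrec (dl T) := by
  have := pr_hist hT
  unfold dl; fun_prop

end prim

/-! ### unfolding lemmas -/

@[simp] theorem conn_nil : conn [] = false := rfl
theorem conn_cons (i : ℕ) (μ : List ℕ) : conn (i :: μ) = (!conn μ && i.bodd) := rfl
@[simp] theorem own_nil : own [] = [] := rfl
theorem own_cons (i : ℕ) (μ : List ℕ) : own (i :: μ) =
    cond (conn μ) (cond (eqb i 1) 0 (μ.getD 0 0 / 2 + 1) :: own μ) (own μ) := rfl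
@[simp] theorem str_nil : str [] = [] := rfl
theorem str_cons (i : ℕ) (μ : List ℕ) : str (i :: μ) = cond (conn μ) [] (i / 2 :: str μ) := rfl
theorem anc_cons (i : ℕ) (μ : List ℕ) : anc (i :: μ) = cond (conn μ) μ (anc μ) := rfl
@[simp] theorem valid_nil (T : List ℕ → Bool) : valid T [] = true := rfl
theorem valid_cons (T : List ℕ → Bool) (i : ℕ) (μ : List ℕ) : valid T (i :: μ) =
    (valid T μ && cond (conn μ) (leb i 1) (i.bodd || T (i / 2 :: str μ))) := rfl

@[simp] theorem sfx_iff {θ l : List ℕ} : sfx θ l = true ↔ θ <:+ l := by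
  rw [sfx, eqb_true, List.suffix_iff_eq_drop]

theorem own_reg {μ : List ℕ} (h : conn μ = false) (i : ℕ) : own (i :: μ) = own μ := by
  rw [own_cons, h]; rfl
theorem own_one {μ : List ℕ} (h : conn μ = true) : own (1 :: μ) = 0 :: own μ := by
  rw [own_cons, h]; rfl
theorem own_ne {μ : List ℕ} (h : conn μ = true) {i : ℕ} (hi : i ≠ 1) :
    own (i :: μ) = (μ.getD 0 0 / 2 + 1) :: own μ := by
  rw [own_cons, h, eqb_false.2 hi]; rfl
theorem own_zero {μ : List ℕ} (h : conn μ = true) : own (0 :: μ) = (μ.getD 0 0 / 2 + 1) :: own μ :=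
  own_ne h (by omega)
theorem conn_of_conn {μ : List ℕ} (h : conn μ = true) (i : ℕ) : conn (i :: μ) = false := by
  rw [conn_cons, h]; rfl
theorem conn_of_reg {μ : List ℕ} (h : conn μ = false) (i : ℕ) : conn (i :: μ) = i.bodd := by
  rw [conn_cons, h]; simp
theorem valid_tail {T : List ℕ → Bool} {i : ℕ} {μ : List ℕ} (h : valid T (i :: μ) = true) :
    valid T μ = true := by
  rw [valid_cons, Bool.and_eq_true] at h; exact h.1
theorem valid_conn {T : List ℕ → Bool} {i : ℕ} {μ : List ℕ} (h : conn μ = true) :
    valid T (i :: μ) = true ↔ valid T μ = true ∧ i ≤ 1 := by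
  rw [valid_cons, h]; simp
theorem valid_reg {T : List ℕ → Bool} {i : ℕ} {μ : List ℕ} (h : conn μ = false) :
    valid T (i :: μ) = true ↔ valid T μ = true ∧ (i.bodd = true ∨ T (i / 2 :: str μ) = true) := by
  rw [valid_cons, h]; simp
theorem own_suffix (i : ℕ) (μ : List ℕ) : own μ <:+ own (i :: μ) := by
  rw [own_cons]
  cases conn μ
  · exact List.suffix_refl _
  · exact List.suffix_cons _ _

theorem free_conn {T : List ℕ → Bool} {l ν : List ℕ} (h : conn ν = true) :
    free T l ν = true ↔ valid T ν = true ∧ (own (0 :: ν) <:+ l ∨ own (1 :: ν) <:+ l) := by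
  rw [free, h]; simp
theorem free_reg {T : List ℕ → Bool} {l ν : List ℕ} (h : conn ν = false) :
    free T l ν = true ↔ valid T ν = true ∧ own ν <:+ l := by
  rw [free, h]; simp
@[simp] theorem free_nil (T : List ℕ → Bool) (l : List ℕ) : free T l [] = true := by
  rw [free_reg conn_nil]; simp

theorem free_valid {T : List ℕ → Bool} {l ν : List ℕ} (h : free T l ν = true) :
    valid T ν = true := by
  rw [free, Bool.and_eq_true] at h; exact h.1

theorem free_own {T : List ℕ → Bool} {l ν : List ℕ} (h : free T l ν = true) : own ν <:+ l := by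
  cases hc : conn ν
  · exact ((free_reg hc).1 h).2
  · rcases ((free_conn hc).1 h).2 with h1 | h1
    · exact (own_suffix _ _).trans h1
    · exact (own_suffix _ _).trans h1

theorem free_tail {T : List ℕ → Bool} {l : List ℕ} {i : ℕ} {μ : List ℕ}
    (h : free T l (i :: μ) = true) : free T l μ = true := by
  have hv := free_valid h
  have ho := free_own h
  cases hc : conn μ
  · rw [free_reg hc]
    exact ⟨valid_tail hv, by rwa [own_reg hc] at ho⟩
  · rw [free_conn hc]
    obtain ⟨h1, h2⟩ := (valid_conn hc).1 hv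
    refine ⟨h1, ?_⟩
    rcases Nat.le_one_iff_eq_zero_or_eq_one.1 h2 with rfl | rfl
    · exact Or.inl ho
    · exact Or.inr ho

theorem free_mono {T : List ℕ → Bool} {l l' ν : List ℕ} (h : free T l ν = true) (hl : l <:+ l') :
    free T l' ν = true := by
  cases hc : conn ν
  · rw [free_reg hc] at h ⊢; exact ⟨h.1, h.2.trans hl⟩
  · rw [free_conn hc] at h ⊢; exact ⟨h.1, h.2.imp (·.trans hl) (·.trans hl)⟩

theorem encode_cons (i : ℕ) (μ : List ℕ) : encode (i :: μ) = Nat.pair i (encode μ) + 1 := rfl
theorem encode_lt_cons (i : ℕ) (μ : List ℕ) : encode μ < encode (i :: μ) := by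
  rw [encode_cons]; exact Nat.lt_succ_of_le (Nat.right_le_pair _ _)
theorem head_le_encode (μ : List ℕ) : μ.getD 0 0 ≤ encode μ := by
  rcases μ with _ | ⟨i, μ⟩
  · simp
  · rw [encode_cons]; exact (Nat.left_le_pair _ _).trans (Nat.le_succ _)

theorem own_bound (ν : List ℕ) : ∀ o ∈ own ν, o ≤ encode ν + 1 := by
  induction ν with
  | nil => simp
  | cons i μ ih =>
    intro o ho
    have h1 := encode_lt_cons i μ
    have h2 := head_le_encode μ
    cases hc : conn μ
    · rw [own_reg hc] at ho; have := ih o ho; omega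
    · by_cases hi : i = 1
      · subst hi
        rw [own_one hc] at ho
        rcases List.mem_cons.1 ho with rfl | ho
        · omega
        · have := ih o ho; omega
      · rw [own_ne hc hi] at ho
        rcases List.mem_cons.1 ho with rfl | ho
        · omega
        · have := ih o ho; omega

theorem own_child_bound {ν : List ℕ} (hc : conn ν = true) (i : ℕ) :
    ∀ o ∈ own (i :: ν), o ≤ encode ν + 1 := by
  intro o ho
  have h2 := head_le_encode ν
  by_cases hi : i = 1
  · subst hi
    rw [own_one hc] at ho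
    rcases List.mem_cons.1 ho with rfl | ho
    · omega
    · exact own_bound _ o ho
  · rw [own_ne hc hi] at ho
    rcases List.mem_cons.1 ho with rfl | ho
    · omega
    · exact own_bound _ o ho

/-! ### the last occurrence -/

@[simp] theorem lastB_zero (P : ℕ → Bool) : lastB P 0 = 0 := rfl
theorem lastB_succ (P : ℕ → Bool) (s : ℕ) : lastB P (s + 1) = cond (P s) (s + 1) (lastB P s) := rfl

theorem lastB_le (P : ℕ → Bool) (s : ℕ) : lastB P s ≤ s := by
  induction s with
  | zero => simp
  | succ s ih => rw [lastB_succ]; cases P s <;> simp; omega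

theorem lt_lastB {P : ℕ → Bool} {u s : ℕ} (h : P u = true) (hu : u < s) : u < lastB P s := by
  induction s with
  | zero => omega
  | succ s ih =>
    rw [lastB_succ]
    cases hs : P s
    · have : u ≠ s := by rintro rfl; simp [h] at hs
      exact ih (by omega)
    · simpa using hu

theorem lastB_spec {P : ℕ → Bool} {u s : ℕ} (h : lastB P s = u + 1) : P u = true := by
  induction s with
  | zero => simp at h
  | succ s ih =>
    rw [lastB_succ] at h
    cases hs : P s
    · rw [hs] at h; exact ih h
    · rw [hs] at h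
      obtain rfl : s = u := by simpa using h
      exact hs

theorem lastB_const {P : ℕ → Bool} {s t : ℕ} (hst : s ≤ t) (h : ∀ u, s ≤ u → u < t → P u = false) :
    lastB P t = lastB P s := by
  induction t, hst using Nat.le_induction with
  | base => rfl
  | succ t hst ih =>
    rw [lastB_succ, h t hst (by omega), cond_false]
    exact ih fun u h1 h2 => h u h1 (by omega)

theorem lastB_congr {P P' : ℕ → Bool} {s : ℕ} (h : ∀ u < s, P u = P' u) :
    lastB P s = lastB P' s := by
  induction s with
  | zero => rfl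
  | succ s ih => rw [lastB_succ, lastB_succ, h s (by omega), ih fun u hu => h u (by omega)]

theorem lastB_le_of {P : ℕ → Bool} {s t : ℕ} (h : ∀ u, s ≤ u → u < t → P u = false) :
    lastB P t ≤ s := by
  rcases le_total s t with h1 | h1
  · rw [lastB_const h1 h]; exact lastB_le _ _
  · exact (lastB_le _ _).trans h1

/-! ### congruence in the history -/

section congr
variable {T : List ℕ → Bool} {d d' : ℕ → List ℕ} {s : ℕ}

theorem top_congr (h : ∀ u < s, d u = d' u) (ν : List ℕ) : top T d ν s = top T d' ν s :=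
  lastB_congr fun u hu => by simp only [act, h u hu]

theorem lst_congr (h : ∀ u < s, d u = d' u) (β : List ℕ) : lst d β s = lst d' β s :=
  lastB_congr fun u hu => by simp only [h u hu]

theorem mlab_succ (β ν : List ℕ) (u : ℕ) : mlab T d β ν (u + 1) =
    cond (eqb (mlab T d β ν u) 0 && leb (encode ν) u && sfx (0 :: β) (d u))
      (top T d ν (u + 1) + 1) (mlab T d β ν u) := rfl

theorem mlab_congr (h : ∀ u < s, d u = d' u) (β ν : List ℕ) :
    mlab T d β ν s = mlab T d' β ν s := by
  induction s with
  | zero => rfl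
  | succ s ih =>
    rw [mlab_succ, mlab_succ, ih fun u hu => h u (by omega), h s (by omega), top_congr h]

theorem out_congr (h : ∀ u < s, d u = d' u) (β : List ℕ) : out T d β s = out T d' β s := by
  simp only [out, expn, chk1, lst_congr h, mlab_congr h, top_congr h]

theorem nd_succ (s e : ℕ) : nd T d s (e + 1) = out T d (nd T d s e) s :: nd T d s e := rfl

theorem nd_congr (h : ∀ u < s, d u = d' u) (e : ℕ) : nd T d s e = nd T d' s e := by
  induction e with
  | zero => rfl
  | succ e ih => rw [nd_succ, nd_succ, ih, out_congr h]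

theorem length_nd (s e : ℕ) : (nd T d s e).length = e := by
  induction e with
  | zero => rfl
  | succ e ih => rw [nd_succ, List.length_cons, ih]

theorem nd_suffix (s : ℕ) {e e' : ℕ} (h : e ≤ e') : nd T d s e <:+ nd T d s e' := by
  induction e', h using Nat.le_induction with
  | base => exact List.suffix_refl _
  | succ e' _ ih => rw [nd_succ]; exact ih.trans (List.suffix_cons _ _)

end congr

section dl
variable {T : List ℕ → Bool}

theorem hist_succ (s : ℕ) :
    hist T (s + 1) = hist T s ++ [nd T (fun u => (hist T s).getD u []) s s] := rfl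

theorem length_hist (s : ℕ) : (hist T s).length = s := by
  induction s with
  | zero => rfl
  | succ s ih => rw [hist_succ, List.length_append, ih]; rfl

theorem hist_getD {s u : ℕ} (h : u < s) : (hist T s).getD u [] = dl T u := by
  induction s with
  | zero => omega
  | succ s ih =>
    rcases Nat.lt_or_ge u s with h1 | h1
    · rw [hist_succ, List.getD_append _ _ _ _ (by rw [length_hist]; exact h1), ih h1]
    · obtain rfl : u = s := by omega
      rfl

theorem dl_eq (s : ℕ) : dl T s = nd T (dl T) s s := by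
  rw [dl, hist_succ, List.getD_append_right _ _ _ _ (by rw [length_hist]), length_hist]
  simp only [Nat.sub_self, List.getD_cons_zero]
  exact nd_congr (fun u hu => hist_getD hu) s

theorem vis_iff {θ : List ℕ} {s : ℕ} :
    θ <:+ dl T s ↔ θ.length ≤ s ∧ θ = nd T (dl T) s θ.length := by
  constructor
  · intro h
    rw [dl_eq] at h
    have h1 : θ.length ≤ s := by simpa [length_nd] using h.length_le
    refine ⟨h1, ?_⟩
    have h2 := nd_suffix (T := T) (d := dl T) s h1
    exact List.IsSuffix.eq_of_length (List.suffix_of_suffix_length_le h h2 (by rw [length_nd]))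
      (by rw [length_nd])
  · rintro ⟨h1, h2⟩
    rw [dl_eq, h2]
    exact nd_suffix s h1

theorem vis_cons {o : ℕ} {β : List ℕ} {s : ℕ} :
    (o :: β) <:+ dl T s ↔ β <:+ dl T s ∧ β.length < s ∧ o = out T (dl T) β s := by
  rw [vis_iff, vis_iff, List.length_cons, nd_succ, List.cons.injEq]
  constructor
  · rintro ⟨h1, h2, h3⟩
    refine ⟨⟨by omega, h3⟩, by omega, ?_⟩
    rw [← h3] at h2; exact h2
  · rintro ⟨⟨_, h2⟩, h3, h4⟩
    refine ⟨by omega, ?_, h2⟩
    rw [← h2]; exact h4

/-- visited infinitely often -/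
def Tru (T : List ℕ → Bool) (θ : List ℕ) : Prop := ∀ n, ∃ s, n ≤ s ∧ θ <:+ dl T s

theorem Tru.suffix {θ θ' : List ℕ} (h : Tru T θ) (h' : θ' <:+ θ) : Tru T θ' := fun n =>
  let ⟨s, h1, h2⟩ := h n; ⟨s, h1, h'.trans h2⟩

theorem vis_zero {β : List ℕ} {s : ℕ} (h : (0 :: β) <:+ dl T s) : expn T (dl T) β s = true := by
  have := (vis_cons.1 h).2.2
  unfold out at this
  revert this
  cases expn T (dl T) β s <;> simp

theorem vis_fin {l : ℕ} {β : List ℕ} {s : ℕ} (h : ((l + 1) :: β) <:+ dl T s) :
    lst (dl T) β s = l ∧ expn T (dl T) β s = false := by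
  have := (vis_cons.1 h).2.2
  unfold out at this
  revert this
  cases expn T (dl T) β s <;> simp
  omega

theorem fin_over {l : ℕ} {β : List ℕ} {u s : ℕ} (hu : (0 :: β) <:+ dl T u) (hl : l ≤ u)
    (hs : u < s) : ¬ ((l + 1) :: β) <:+ dl T s := by
  intro h
  have h1 := (vis_fin h).1
  have h2 : u < lst (dl T) β s := lt_lastB (by simpa using hu) hs
  omega

theorem Tru.fin_no_exp {l : ℕ} {β : List ℕ} (h : Tru T ((l + 1) :: β)) {u : ℕ} (hu : l ≤ u) :
    ¬ (0 :: β) <:+ dl T u := by
  intro h1
  obtain ⟨s, hs, h2⟩ := h (u + 1)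
  exact fin_over h1 hu (by omega) h2

theorem Tru.fin_uniq {l : ℕ} {β : List ℕ} (h : Tru T ((l + 1) :: β)) {o s : ℕ} (hs : l ≤ s)
    (ho : (o :: β) <:+ dl T s) : o = l + 1 := by
  rcases o with _ | o
  · exact absurd ho (h.fin_no_exp hs)
  · obtain ⟨t, ht, h2⟩ := h s
    have h3 := (vis_fin ho).1
    have h4 := (vis_fin h2).1
    have h5 : lst (dl T) β t = lst (dl T) β s := lastB_const ht fun u h5 _ => by
      have := h.fin_no_exp (hs.trans h5)
      simpa [← Bool.not_eq_true] using this
    omega

theorem Tru.uniq {o o' : ℕ} {β : List ℕ} (h : Tru T (o :: β)) (h' : Tru T (o' :: β)) : o = o' := by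
  rcases o with _ | o
  · rcases o' with _ | o'
    · rfl
    · obtain ⟨s, h1, h2⟩ := h o'
      exact h'.fin_uniq h1 h2
  · obtain ⟨s, h1, h2⟩ := h' o
    exact (h.fin_uniq h1 h2).symm

theorem Tru.not_exp {β : List ℕ} (h : Tru T β) (h0 : ¬ Tru T (0 :: β)) :
    ∃ l, (∀ s, l ≤ s → lst (dl T) β s = l) ∧ Tru T ((l + 1) :: β) := by
  unfold Tru at h0
  push Not at h0
  obtain ⟨n, hn⟩ := h0
  have h1 : ∀ s, n ≤ s → lst (dl T) β s = lst (dl T) β n := fun s hs =>
    lastB_const hs fun u h5 _ => by simpa [← Bool.not_eq_true] using hn u h5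
  refine ⟨lst (dl T) β n, fun s hs => ?_, fun m => ?_⟩
  · rcases le_total n s with h2 | h2
    · exact h1 s h2
    · refine (lastB_const h2 fun u h3 h4 => ?_).symm
      by_contra h5
      have : u < lst (dl T) β n := lt_lastB (by simpa using h5) h4
      omega
  · obtain ⟨s, h2, h3⟩ := h (max (max m n) (β.length + 1))
    refine ⟨s, by omega, vis_cons.2 ⟨h3, by omega, ?_⟩⟩
    have h4 := hn s (by omega)
    rw [vis_cons] at h4
    unfold out at h4 ⊢
    cases he : expn T (dl T) β s
    · rw [cond_false, h1 s (by omega)]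
    · exact absurd ⟨h3, by omega, by rw [he]; rfl⟩ h4

theorem Tru.child {β : List ℕ} (h : Tru T β) : ∃ o, Tru T (o :: β) := by
  by_cases h0 : Tru T (0 :: β)
  · exact ⟨0, h0⟩
  · obtain ⟨l, -, hl⟩ := h.not_exp h0
    exact ⟨_, hl⟩

theorem exists_tru (e : ℕ) : ∃ β, Tru T β ∧ β.length = e := by
  induction e with
  | zero => exact ⟨[], fun n => ⟨n, le_rfl, List.nil_suffix⟩, rfl⟩
  | succ e ih =>
    obtain ⟨β, h1, h2⟩ := ih
    obtain ⟨o, ho⟩ := h1.child
    exact ⟨o :: β, ho, by simp [h2]⟩

theorem exists_cons_suffix {η β : List ℕ} (h : η <:+ β) (hne : η ≠ β) : ∃ o, (o :: η) <:+ β := by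
  obtain ⟨t, rfl⟩ := h
  rcases List.eq_nil_or_concat t with rfl | ⟨t, o, rfl⟩
  · exact absurd rfl hne
  · exact ⟨o, t, by simp⟩

theorem quiet_aux {β : List ℕ} (hβ : Tru T β) {u s : ℕ} (hu : (0 :: β) <:+ dl T u) (hs : u < s)
    (θ : List ℕ) (hb : ∀ o ∈ θ, o ≤ u + 1) (hv : θ <:+ dl T s) : θ <:+ β ∨ (0 :: β) <:+ θ := by
  induction θ with
  | nil => exact Or.inl List.nil_suffix
  | cons o η ih =>
    rcases ih (fun o ho => hb o (List.mem_cons_of_mem _ ho)) ((List.suffix_cons _ _).trans hv)
      with h1 | h1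
    swap
    · exact Or.inr (h1.trans (List.suffix_cons _ _))
    have hbo := hb o List.mem_cons_self
    by_cases he : η = β
    · subst he
      rcases o with _ | o
      · exact Or.inr (List.suffix_refl _)
      · exact absurd hv (fin_over hu (by omega) hs)
    · obtain ⟨o', ho'⟩ := exists_cons_suffix h1 he
      left
      have hu' : (o' :: η) <:+ dl T u := (ho'.trans (List.suffix_cons _ _)).trans hu
      suffices o = o' by rw [this]; exact ho'
      rcases o' with _ | o'
      · rcases o with _ | o
        · rfl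
        · exact absurd hv (fin_over hu' (by omega) hs)
      · have h2 := (vis_fin hu').1
        have h3 : lst (dl T) η u ≤ u := lastB_le _ _
        exact (hβ.suffix ho').fin_uniq (by omega) hv

theorem act_iff {ν : List ℕ} {s : ℕ} :
    act T (dl T) ν s = true ↔ free T (dl T s) ν = true ∧ encode ν < s := by
  simp [act]

/-- A node that is not free acts only at expansionary stages. -/
theorem quiet {β ν : List ℕ} (hβ : Tru T β) (hν : free T β ν = false) {u s : ℕ}
    (hu : (0 :: β) <:+ dl T u) (hc : encode ν ≤ u) (hs : u < s) (ha : act T (dl T) ν s = true) :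
    (0 :: β) <:+ dl T s := by
  have hf := (act_iff.1 ha).1
  rw [← Bool.not_eq_true] at hν
  cases hcn : conn ν
  · rw [free_reg hcn] at hf hν
    rcases quiet_aux hβ hu hs _ (fun o ho => (own_bound _ o ho).trans (by omega)) hf.2 with h | h
    · exact absurd ⟨hf.1, h⟩ hν
    · exact h.trans hf.2
  · rw [free_conn hcn] at hf hν
    rcases hf.2 with h1 | h1
    · rcases quiet_aux hβ hu hs _ (fun o ho => (own_child_bound hcn _ o ho).trans (by omega)) h1
        with h | h
      · exact absurd ⟨hf.1, Or.inl h⟩ hν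
      · exact h.trans h1
    · rcases quiet_aux hβ hu hs _ (fun o ho => (own_child_bound hcn _ o ho).trans (by omega)) h1
        with h | h
      · exact absurd ⟨hf.1, Or.inr h⟩ hν
      · exact h.trans h1

end dl

end Pool.Agent.P.MP_599875_lc
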