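import Pool.Agent.P.MP_599875_lc.Press

/-! The structure is categorical relative to a path of the tree. -/

namespace Pool.Agent.P.MP_599875_lc

open Pool.Agent.Lib.Comp Encodable Denumerable Filter
open Nat.Partrec (Code)

set_option maxHeartbeats 400000

theorem cp_listRec {step : List ℕ → ℕ → ℕ} (hs : Computable fun p : List ℕ × ℕ => step p.1 p.2)
    (b : ℕ) : Computable fun ν : List ℕ =>
      (List.rec (motive := fun _ => ℕ) b (fun j μ r => step (j :: μ) r) ν : ℕ) := by
  have h1 : Computable fun ν : List ℕ => (Nat.rec (motive := fun _ => ℕ) b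
      (fun k r => step (ν.drop (ν.length - (k + 1))) r) ν.length : ℕ) := by fun_prop
  refine h1.of_eq fun ν => ?_
  have h2 : ∀ k ≤ ν.length, (Nat.rec (motive := fun _ => ℕ) b
      (fun k r => step (ν.drop (ν.length - (k + 1))) r) k : ℕ) =
      (List.rec (motive := fun _ => ℕ) b (fun j μ r => step (j :: μ) r)
        (ν.drop (ν.length - k)) : ℕ) := by
    intro k
    induction k with
    | zero => intro _; simp
    | succ k ih =>
      intro hk
      have h3 : ν.drop (ν.length - (k + 1)) =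
          ν[ν.length - (k + 1)] :: ν.drop (ν.length - k) := by
        rw [List.drop_eq_getElem_cons (by omega)]
        congr 2; omega
      simp only
      rw [ih (by omega), h3]
  simpa using h2 ν.length le_rfl

variable {T : List ℕ → Bool} {c : Code} {g gi : ℕ → ℕ} {β : List ℕ}

theorem Cp.cp_tau (H : Cp T c g gi) : Computable fun y => tau T false (gi y) := by
  have A : ∀ y, ∃ n : ℕ, qry c n.unpair.1 [y] n.unpair.2 = true := fun y =>
    let ⟨s, hs⟩ := (H.c1 y).exists; ⟨Nat.pair _ s, by simpa using hs⟩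
  have hA : Computable fun y => Nat.find (A y) := cp_find
    (P := fun y (n : ℕ) => qry c n.unpair.1 [y] n.unpair.2) (Primrec.to_comp (by fun_prop)) A
  exact (cp_fst (cp_unpair hA)).of_eq fun y => H.s1 _ _ _ (Nat.find_spec (A y))

theorem Cp.cp_dlt (H : Cp T c g gi) : Computable fun p : ℕ × ℕ => dlt (gi p.1) (gi p.2) := by
  have A : ∀ p : ℕ × ℕ, ∃ n : ℕ, qry c n.unpair.1 [p.1, p.2] n.unpair.2 = true := fun p =>
    let ⟨s, hs⟩ := (H.c2 p.1 p.2).exists; ⟨Nat.pair _ s, by simpa using hs⟩
  have hA : Computable fun y => Nat.find (A y) := cp_find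
    (P := fun (p : ℕ × ℕ) (n : ℕ) => qry c n.unpair.1 [p.1, p.2] n.unpair.2)
    (Primrec.to_comp (by fun_prop)) A
  exact (cp_fst (cp_unpair hA)).of_eq fun y => H.s2 _ _ _ _ (Nat.find_spec (A y))

theorem Cp.cp_node (H : Cp T c g gi) : Computable fun y => node (gi y) :=
  (cp_ofNat (δ := List ℕ) (cp_fst (cp_unpair H.cp_tau))).of_eq fun y => by simp [tau]

theorem Cp.cp_lab (H : Cp T c g gi) : Computable fun y => lab T (gi y) :=
  (cp_fst (cp_unpair (cp_snd (cp_unpair H.cp_tau)))).of_eq fun y => by simp [tau]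

theorem Cp.cp_dlt' (H : Cp T c g gi) {α : Type*} [Primcodable α] {u v : α → ℕ} (hu : Computable u)
    (hv : Computable v) : Computable fun a => dlt (gi (u a)) (gi (v a)) :=
  (H.cp_dlt.comp (hu.pair hv) :)

theorem Cp.cp_node' (H : Cp T c g gi) {α : Type*} [Primcodable α] {u : α → ℕ} (hu : Computable u) :
    Computable fun a => node (gi (u a)) := (H.cp_node.comp hu :)

theorem Cp.cp_lab' (H : Cp T c g gi) {α : Type*} [Primcodable α] {u : α → ℕ} (hu : Computable u) :
    Computable fun a => lab T (gi (u a)) := (H.cp_lab.comp hu :)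

theorem cp_free (hT : Primrec T) {α : Type*} [Primcodable α] {u : α → List ℕ} (hu : Computable u) :
    Computable fun a => free T β (u a) :=
  cp_of1 (F := fun ν => free T β ν) (by fun_prop) hu

theorem cp_conn {α : Type*} [Primcodable α] {u : α → List ℕ} (hu : Computable u) :
    Computable fun a => conn (u a) :=
  cp_of1 (F := fun ν => conn ν) (by fun_prop) hu

/-- the connectors of `β` -/
def tc (T : List ℕ → Bool) (β ν : List ℕ) : Bool := conn ν && valid T ν && eqb (own ν) β

theorem tc_iff {ν : List ℕ} : tc T β ν = true ↔ conn ν = true ∧ valid T ν = true ∧ own ν = β := by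
  simp [tc, and_assoc]

/-- the child of a free connector which is not free -/
def nf (T : List ℕ → Bool) (β ν : List ℕ) : ℕ := cond (free T β (0 :: ν)) 1 0

theorem conn_children {l ν : List ℕ} (hc : conn ν = true) :
    free T l ν = true ↔ free T l (0 :: ν) = true ∨ free T l (1 :: ν) = true := by
  rw [free_conn hc, free_reg (conn_of_conn hc _), free_reg (conn_of_conn hc _), valid_conn hc,
    valid_conn hc]
  simp [and_or_left]

theorem not_free_nf {ν : List ℕ} (hc : conn ν = true) : free T β (nf T β ν :: ν) = false := by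
  unfold nf
  cases h : free T β (0 :: ν)
  · exact h
  · by_contra h1
    have h2 := free_own h
    have h3 : own (1 :: ν) <:+ β := free_own (by simpa using h1)
    rw [own_zero hc] at h2
    rw [own_one hc] at h3
    have := (List.suffix_of_suffix_length_le h2 h3 (by simp)).eq_of_length (by simp)
    simp at this

theorem eq_nf {ν : List ℕ} {j : ℕ} (hc : conn ν = true) (hν : free T β ν = true) (hj : j ≤ 1)
    (h : free T β (j :: ν) = false) : j = nf T β ν := by
  unfold nf
  rcases Nat.le_one_iff_eq_zero_or_eq_one.1 hj with rfl | rfl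
  · rw [h]; rfl
  · rcases (conn_children hc).1 hν with h1 | h1
    · rw [h1]; rfl
    · rw [h1] at h; simp at h

theorem reg_child (hβ : Tru T β) {B : ℕ} (hB : ∀ o ∈ β, o ≤ B) {μ : List ℕ} {j w : ℕ}
    (hc : conn μ = false) (hμ : free T β μ = true) (hκ : free T β (j :: μ) = false)
    (ht : tc T β (j :: μ) = false) (ha : act T (dl T) (j :: μ) w = true) : w < B := by
  have hf := (act_iff.1 ha).1
  have hv := free_valid hf
  have ho := free_own hμ
  rw [← Bool.not_eq_true] at hκ ht
  cases hcκ : conn (j :: μ)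
  · exact absurd ((free_reg hcκ).2 ⟨hv, by rwa [own_reg hc]⟩) hκ
  rw [tc_iff, own_reg hc] at ht
  obtain ⟨o, h1⟩ := exists_cons_suffix ho (fun h => ht ⟨hcκ, hv, h⟩)
  rw [free_conn hcκ, own_zero hcκ, own_one hcκ, own_reg hc] at hκ hf
  rcases o with _ | l
  · exact absurd ⟨hv, Or.inr h1⟩ hκ
  have h2 := hB _ (h1.subset List.mem_cons_self)
  by_contra h3
  rcases hf.2 with h4 | h4
  · have := (hβ.suffix h1).fin_uniq (by omega) h4
    rw [this] at hκ
    exact hκ ⟨hv, Or.inl h1⟩
  · have := (hβ.suffix h1).fin_uniq (by omega) h4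
    omega

theorem conn_child (hβ : Tru T β) {μ : List ℕ} {j : ℕ} (hc : conn μ = true)
    (hμ : free T β μ = true) (hκ : free T β (j :: μ) = false) : ¬ Inf T (j :: μ) := by
  intro hi
  have h1 := hi.tru
  have h2 : ∀ i, own (i :: μ) <:+ β → False := by
    intro i h
    have h3 := hβ.suffix h
    have h4 : own (j :: μ) = own (i :: μ) := by
      rw [own_cons, hc, cond_true] at h1 h3
      rw [own_cons, own_cons, hc, cond_true, cond_true, h1.uniq h3]
    rw [(free_reg (conn_of_conn hc j)).2 ⟨hi.valid, by rwa [h4]⟩] at hκ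
    simp at hκ
  rcases ((free_conn hc).1 hμ).2 with h | h
  · exact h2 _ h
  · exact h2 _ h

theorem free_child (hγ : Tru T (0 :: β)) {ν : List ℕ} (hν : free T β ν = true) :
    ∃ i, Inf T (i :: ν) ∧ (conn ν = true → free T β (i :: ν) = true) := by
  have hβ : Tru T β := hγ.suffix (List.suffix_cons _ _)
  cases hc : conn ν
  swap
  · rcases (conn_children hc).1 hν with h | h
    · exact ⟨0, free_inf hβ h, fun _ => h⟩
    · exact ⟨1, free_inf hβ h, fun _ => h⟩
  obtain ⟨hv, ho⟩ := (free_reg hc).1 hν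
  obtain ⟨o, h1⟩ := exists_cons_suffix (ho.trans (List.suffix_cons 0 β)) (fun h => by
    have := ho.length_le
    rw [h] at this; simp at this)
  have h2 : conn ((2 * (o - 1) + 1) :: ν) = true := by rw [conn_of_reg hc]; simp
  refine ⟨2 * (o - 1) + 1, free_inf hγ ?_, by simp⟩
  rw [free_conn h2, valid_reg hc, own_zero h2, own_one h2, own_reg hc]
  refine ⟨⟨hv, Or.inl (by simp)⟩, ?_⟩
  rcases o with _ | o
  · exact Or.inr h1
  · left
    simp only [List.getD_cons_zero]
    rwa [show (2 * (o + 1 - 1) + 1) / 2 + 1 = o + 1 by omega]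

/-- origins of all nodes -/
theorem Cp.all_origins (H : Cp T c g gi) (hT : Primrec T) (hβ : Tru T β)
    (he : β.length = 2 * encode c) :
    ∃ o : List ℕ → ℕ, Computable o ∧ vx (gi (o [])) = 0 ∧ (∀ ν, node (gi (o ν)) = ν) ∧
      (∀ ν, Sym T ν (vx (gi (o ν)))) ∧
      ∀ j ν, tc T β (j :: ν) = false → bt j (vx (gi (o ν))) = par (vx (gi (o (j :: ν)))) := by
  have hγ := H.press hβ he
  obtain ⟨o', ho', hs'⟩ := H.origins hT hβ he
  obtain ⟨B, hB⟩ : ∃ B, ∀ o ∈ β, o ≤ B := ⟨β.sum, fun o ho => List.single_le_sum (by simp) o ho⟩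
  let Q : List ℕ × ℕ → ℕ → Bool := fun p y =>
    !(free T β p.1 && eqb (node (gi p.2)) p.1.tail && !eqb p.1 []) ||
      (eqb (node (gi y)) p.1 && eqb (lab T (gi y)) 1 && eqb (dlt (gi p.2) (gi y)) 0 &&
        (!conn p.1 || eqb (dlt (gi y) (gi (o' (nf T β p.1 :: p.1)))) 0))
  have hQ : Computable fun q : (List ℕ × ℕ) × ℕ => Q q.1 q.2 := by
    have h3 : Computable fun ν => o' (nf T β ν :: ν) :=
      ho'.comp (Primrec.to_comp (by unfold nf; fun_prop))
    have h4 : Computable fun q : (List ℕ × ℕ) × ℕ => o' (nf T β q.1.1 :: q.1.1) :=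
      (h3.comp (g := fun q : (List ℕ × ℕ) × ℕ => q.1.1) (by fun_prop) :)
    simp only [Q]
    exact cp_or (cp_not (cp_and (cp_and (cp_free hT (by fun_prop)) (cp_eqb (H.cp_node' (by fun_prop))
      (by fun_prop))) (by fun_prop))) (cp_and (cp_and (cp_and (cp_eqb (H.cp_node' (by fun_prop))
      (by fun_prop)) (cp_eqb (H.cp_lab' (by fun_prop)) (by fun_prop)))
      (cp_eqb (H.cp_dlt' (by fun_prop) (by fun_prop)) (by fun_prop)))
      (cp_or (cp_not (cp_conn (by fun_prop))) (cp_eqb (H.cp_dlt' (by fun_prop) h4) (by fun_prop))))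
  have A : ∀ p, ∃ y, Q p y = true := by
    rintro ⟨ν, z⟩
    cases h : (free T β ν && eqb (node (gi z)) ν.tail && !eqb ν [])
    · exact ⟨0, by simp only [Q, h]; rfl⟩
    simp only [Bool.and_eq_true, eqb_true, Bool.not_eq_true', eqb_false] at h
    obtain ⟨⟨h1, h2⟩, h3⟩ := h
    obtain ⟨j, μ, rfl⟩ := List.exists_cons_of_ne_nil h3
    obtain ⟨i, h4, h5⟩ := free_child hγ h1
    have h6 : Has T (j :: μ) (cond (bt j (vx (gi z))) (uv i) 0) 0 := by
      have h0 : Has T (j :: μ) 0 0 := has_iff.2 (Or.inl ⟨rfl, rfl⟩)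
      cases bt j (vx (gi z))
      · exact h0
      · simpa using h4.sym_uv _ _ h0
    obtain ⟨x, h7, h8, h9⟩ := h6.exists
    refine ⟨g x, ?_⟩
    simp only [Q, H.inv, Bool.or_eq_true, Bool.and_eq_true, eqb_true]
    refine Or.inr ⟨⟨⟨h7, h9⟩, ?_⟩, ?_⟩
    · rw [dlt_child_zero (j := j) (by rw [h7, h2]; rfl), h8]
      cases bt j (vx (gi z)) <;> simp
    · cases hc : conn (j :: μ)
      · exact Or.inl rfl
      right
      have h10 := not_free_nf (T := T) (β := β) hc
      obtain ⟨h11, -, h12, -⟩ := hs' _ h10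
      rw [dlt_child_zero (j := nf T β (j :: μ)) (by rw [h11, h7]), h12 (conn_child hβ hc h1 h10),
        h8]
      cases bt j (vx (gi z))
      · simp
      · have : nf T β (j :: μ) ≠ i := by
          intro h
          rw [h, h5 hc] at h10; simp at h10
        simp [bt_uv, this]
  have hA := cp_find hQ A
  let tb : List ℕ := (List.range B).map fun n => g (tok (ofNat (List ℕ) n) 0 0 0)
  let step : List ℕ → ℕ → ℕ := fun ν z =>
    cond (free T β ν) (cond (ltb (encode ν) B) (tb.getD (encode ν) 0) (Nat.find (A (ν, z)))) (o' ν)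
  have hstep : Computable fun p : List ℕ × ℕ => step p.1 p.2 := by
    simp only [step]
    exact cp_cond (cp_free hT (by fun_prop)) (cp_cond (by fun_prop) (by fun_prop) hA)
      (ho'.comp Computable.fst)
  obtain ⟨o, ho, o0, oc⟩ : ∃ o : List ℕ → ℕ, Computable o ∧ o [] = g (tok [] 0 0 0) ∧
      ∀ j μ, o (j :: μ) = step (j :: μ) (o μ) := ⟨_, cp_listRec hstep _, rfl, fun _ _ => rfl⟩
  have O1 : ∀ ν, free T β ν = false → o ν = o' ν := by
    intro ν hν
    obtain ⟨j, μ, rfl⟩ := List.exists_cons_of_ne_nil (ne_nil_of_not_free hν)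
    rw [oc]; simp only [step, hν]; rfl
  have O2 : ∀ ν, free T β ν = true → (ν = [] ∨ encode ν < B) → gi (o ν) = tok ν 0 0 0 := by
    intro ν hν h
    rcases ν with _ | ⟨j, μ⟩
    · rw [o0, H.inv]
    · have h1 : encode (j :: μ) < B := h.resolve_left (by simp)
      rw [oc]
      simp only [step, hν, ltb_true.2 h1, cond_true, tb]
      rw [List.getD_eq_getElem _ _ (by simpa using h1)]
      simp only [List.getElem_map, List.getElem_range, Denumerable.ofNat_encode, H.inv]
  have O3 : ∀ j μ, free T β (j :: μ) = true → B ≤ encode (j :: μ) → node (gi (o μ)) = μ →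
      node (gi (o (j :: μ))) = j :: μ ∧ lab T (gi (o (j :: μ))) = 1 ∧
      dlt (gi (o μ)) (gi (o (j :: μ))) = 0 ∧ (conn (j :: μ) = true →
        dlt (gi (o (j :: μ))) (gi (o' (nf T β (j :: μ) :: j :: μ))) = 0) := by
    intro j μ hν h1 h2
    have h3 := Nat.find_spec (A (j :: μ, o μ))
    have h4 : o (j :: μ) = Nat.find (A (j :: μ, o μ)) := by
      rw [oc]; simp only [step, hν, ltb_false.2 h1, cond_true, cond_false]
    rw [← h4] at h3
    simp only [Q, hν, h2, List.tail_cons, eqb_true.2 rfl, eqb_false.2 (List.cons_ne_nil j μ),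
      Bool.not_false, Bool.and_self, Bool.not_true, Bool.false_or, Bool.and_eq_true, eqb_true,
      Bool.or_eq_true, Bool.not_eq_true'] at h3
    refine ⟨h3.1.1.1, h3.1.1.2, h3.1.2, fun hc => h3.2.resolve_left (by simp [hc])⟩
  have O0 : ∀ ν, node (gi (o ν)) = ν := by
    intro ν
    induction ν with
    | nil => rw [O2 [] (by simp) (Or.inl rfl), node_tok]
    | cons j μ ih =>
      cases hν : free T β (j :: μ)
      · rw [O1 _ hν]; exact (hs' _ hν).1
      · rcases Nat.lt_or_ge (encode (j :: μ)) B with h | h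
        · rw [O2 _ hν (Or.inr h), node_tok]
        · exact (O3 j μ hν h ih).1
  have O4 : ∀ ν, free T β ν = true → vx (gi (o ν)) = 0 ∨ (B ≤ encode ν ∧
      Has T ν (vx (gi (o ν))) 0 ∧ (conn ν = true → bt (nf T β ν) (vx (gi (o ν))) =
        par (vx (gi (o (nf T β ν :: ν)))))) := by
    intro ν hν
    by_cases h : ν = [] ∨ encode ν < B
    · left; rw [O2 ν hν h, vx_tok]
    · push Not at h
      obtain ⟨j, μ, rfl⟩ := List.exists_cons_of_ne_nil h.1
      obtain ⟨h1, h2, -, h3⟩ := O3 j μ hν h.2 (O0 μ)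
      refine Or.inr ⟨h.2, ?_, fun hc => ?_⟩
      · have := has_of_lab h2
        rwa [h1] at this
      · have h4 := h3 hc
        rw [← O1 _ (not_free_nf hc)] at h4
        exact (dlt_child_zero (by rw [O0, O0])).1 h4
  refine ⟨o, ho, by rw [O2 [] (by simp) (Or.inl rfl), vx_tok], O0, fun ν => ?_, fun j ν ht => ?_⟩
  · cases hν : free T β ν
    · rw [O1 _ hν]; exact (hs' _ hν).2.1
    · rcases O4 ν hν with h | ⟨-, h, -⟩
      · rw [h]; exact sym_zero ν
      · exact (free_inf hβ hν).sym fun i => h.once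
  cases hν : free T β ν
  · rw [O1 _ hν, O1 _ (not_free_cons hν j)]; exact (hs' _ hν).2.2.2 j
  cases hκ : free T β (j :: ν)
  swap
  · rcases Nat.lt_or_ge (encode (j :: ν)) B with h | h
    · have := encode_lt_cons j ν
      rw [O2 _ hκ (Or.inr h), O2 _ hν (Or.inr (by omega))]; simp
    · exact (dlt_child_zero (by rw [O0, O0])).1 (O3 j ν hκ h (O0 ν)).2.2.1
  have h1 : ¬ Inf T (j :: ν) := by
    cases hc : conn ν
    · intro hi
      obtain ⟨w, h1, h2⟩ := hi B
      have := reg_child hβ hB hc hν hκ ht h2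
      omega
    · exact conn_child hβ hc hν hκ
  have h2 : vx (gi (o (j :: ν))) = 0 := by rw [O1 _ hκ]; exact (hs' _ hκ).2.2.1 h1
  rcases O4 ν hν with h | ⟨h3, h4, h5⟩
  · rw [h, h2]; simp
  cases hb : bt j (vx (gi (o ν)))
  · rw [h2]; simp
  obtain ⟨w, hw⟩ := h4.once hb
  cases hc : conn ν
  · have h6 := reg_child hβ hB hc hν hκ ht hw
    have h7 := (act_iff.1 hw).2
    have := encode_lt_cons j ν
    omega
  · have h6 := ((valid_conn hc).1 (free_valid (act_iff.1 hw).1)).2
    have h7 := eq_nf hc hν h6 hκ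
    rw [← h7] at h5
    rw [← h5 hc, hb]

end Pool.Agent.P.MP_599875_lc
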